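import Pool.Agent.Helper16.WSemi.Defs

/-!
# Basic facts on places of function fields
-/

namespace Pool.Agent.Helper16.WSemi

open IntermediateField Polynomial

section General

variable {K F : Type*} [Field K] [Field F] [Algebra K F]

open scoped IntermediateField.algebraAdjoinAdjoin in
lemma isAlgebraic_of_transcendental (h : IsFunctionField K F) {a : F} (ha : Transcendental K a) :
    Algebra.IsAlgebraic K⟮a⟯ F := by
  obtain ⟨z, hz, hfin⟩ := h
  have h1 : Algebra.IsAlgebraic K⟮z⟯ F := Algebra.IsAlgebraic.of_finite _ _
  rw [isAlgebraic_adjoin_iff_top] at h1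
  have h2 := Algebra.IsAlgebraic.trdeg_le_cardinalMk K ({z} : Set F)
  rw [Cardinal.mk_singleton] at h2
  have h3 : AlgebraicIndependent K (fun _ : Unit => a) := by
    rw [algebraicIndependent_unique_type_iff]
    exact ha
  have h4 := h3.isTranscendenceBasis_of_lift_trdeg_le_of_finite (by simpa using h2)
  have h5 := h4.isAlgebraic_field
  rwa [Set.range_const] at h5

/-- A function field of one variable from generators. -/
lemma isFunctionField_of_generators {z : F} (hz : Transcendental K z) {T : Set F} (hT : T.Finite)
    (halg : ∀ t ∈ T, IsAlgebraic K⟮z⟯ t) (hgen : IntermediateField.adjoin K T = ⊤) :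
    IsFunctionField K F := by
  refine ⟨z, hz, ?_⟩
  have : Finite T := hT
  have h1 : FiniteDimensional K⟮z⟯ (IntermediateField.adjoin K⟮z⟯ T) :=
    IntermediateField.finiteDimensional_adjoin fun t ht => (halg t ht).isIntegral
  have h2 : IntermediateField.adjoin K⟮z⟯ T = ⊤ := by
    rw [eq_top_iff]
    intro w _
    have hw : w ∈ IntermediateField.adjoin K T := hgen ▸ IntermediateField.mem_top
    have hle : IntermediateField.adjoin K T ≤
        (IntermediateField.adjoin K⟮z⟯ T).restrictScalars K := by
      rw [IntermediateField.adjoin_le_iff]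
      exact IntermediateField.subset_adjoin _ _
    exact hle hw
  rw [h2] at h1
  exact (IntermediateField.topEquiv (F := K⟮z⟯) (E := F)).toLinearEquiv.finiteDimensional

end General

section Integral

variable {F : Type*} [Field F]

lemma mem_of_isIntegral {R : Type*} [CommRing R] [Algebra R F] (V : ValuationSubring F)
    (hR : ∀ r : R, algebraMap R F r ∈ V) {f : F} (hf : IsIntegral R f) : f ∈ V := by
  obtain ⟨p, hp, hpf⟩ := hf
  let φ : R →+* V := (algebraMap R F).codRestrict V.toSubring hR
  have h1 : IsIntegral V f := by
    refine ⟨p.map φ, hp.map φ, ?_⟩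
    rw [Polynomial.eval₂_map]
    exact hpf
  obtain ⟨y, hy⟩ := (IsIntegrallyClosed.isIntegral_iff (R := V) (K := F)).1 h1
  rw [← hy]
  exact y.2

lemma isIntegral_of_forall_mem {R : Type*} [CommRing R] [Algebra R F] {f : F}
    (h : ∀ V : ValuationSubring F, (∀ r : R, algebraMap R F r ∈ V) → f ∈ V) :
    IsIntegral R f := by
  have h1 := iInf_valuationSubring_superset (s := (((algebraMap R F).range : Subring F) : Set F))
  rw [Subring.closure_eq] at h1
  have h2 : f ∈ (integralClosure (algebraMap R F).range F).toSubring := by
    rw [← h1, Subring.mem_iInf]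
    rintro ⟨V, hV⟩
    exact h V fun r => hV ⟨r, rfl⟩
  have h3 : IsIntegral (algebraMap R F).range f := h2
  let _ : Algebra R (algebraMap R F).range := (algebraMap R F).rangeRestrict.toAlgebra
  have : IsScalarTower R (algebraMap R F).range F := IsScalarTower.of_algebraMap_eq fun _ => rfl
  have : Algebra.IsIntegral R (algebraMap R F).range := by
    constructor
    rintro ⟨_, r, rfl⟩
    exact isIntegral_algebraMap (R := R) (A := (algebraMap R F).range) (x := r)
  exact isIntegral_trans f h3

end Integral

section Place

variable {K F : Type*} [Field K] [Field F] [Algebra K F]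

lemma valuation_const {O : ValuationSubring F} (hO : ∀ c : K, algebraMap K F c ∈ O) {c : K}
    (hc : c ≠ 0) : O.valuation (algebraMap K F c) = 1 := by
  have h1 : O.valuation (algebraMap K F c) ≤ 1 := (O.valuation_le_one_iff _).2 (hO c)
  have h2 : O.valuation (algebraMap K F c)⁻¹ ≤ 1 := by
    rw [← map_inv₀]
    exact (O.valuation_le_one_iff _).2 (hO c⁻¹)
  rw [map_inv₀] at h2
  have h3 : O.valuation (algebraMap K F c) ≠ 0 := by
    rw [Valuation.ne_zero_iff]
    simpa using hc
  exact le_antisymm h1 ((inv_le_one₀ (zero_lt_iff.2 h3)).1 h2)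

/-- An element of `O` none of whose translates by constants lie in the maximal ideal. -/
lemma valuation_aeval_of_forall [IsAlgClosed K] {O : ValuationSubring F}
    (hO : ∀ c : K, algebraMap K F c ∈ O) {a : F}
    (h : ∀ c : K, O.valuation (a - algebraMap K F c) = 1) {p : K[X]} (hp : p ≠ 0) :
    O.valuation (aeval a p) = 1 := by
  have hs := IsAlgClosed.splits p
  have h1 := hs.eq_prod_roots
  rw [h1, map_mul, map_mul, aeval_C, valuation_const hO (by simpa using hp), one_mul,
    map_multiset_prod, map_multiset_prod, Multiset.map_map, Multiset.map_map]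
  apply Multiset.prod_eq_one
  intro w hw
  obtain ⟨r, _, rfl⟩ := Multiset.mem_map.1 hw
  simpa using h r

/-- The residue field of a place of a function field over an algebraically closed field. -/
lemma exists_const [IsAlgClosed K] (hF : IsFunctionField K F) {O : ValuationSubring F}
    (hO : IsPlace K O) {a : F} (ha : a ∈ O) :
    ∃ c : K, O.valuation (a - algebraMap K F c) < 1 := by
  by_contra hcon
  push Not at hcon
  have h1 : ∀ c : K, O.valuation (a - algebraMap K F c) = 1 := fun c =>
    le_antisymm ((O.valuation_le_one_iff _).2 (O.toSubring.sub_mem ha (hO.1 c))) (hcon c)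
  have h2 : ∀ p : K[X], p ≠ 0 → O.valuation (aeval a p) = 1 := fun p hp =>
    valuation_aeval_of_forall hO.1 h1 hp
  have h3 : Transcendental K a := by
    rintro ⟨p, hp, hpa⟩
    have := h2 p hp
    rw [hpa] at this
    simp at this
  have h4 := isAlgebraic_of_transcendental hF h3
  apply hO.2
  rw [eq_top_iff]
  intro f _
  have h5 : ∀ r : K⟮a⟯, algebraMap K⟮a⟯ F r ∈ O := by
    rintro ⟨r, hr⟩
    rw [IntermediateField.mem_adjoin_simple_iff] at hr
    obtain ⟨p, q, rfl⟩ := hr
    change aeval a p / aeval a q ∈ O
    rw [← O.valuation_le_one_iff, map_div₀]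
    by_cases hq : q = 0
    · simp [hq]
    by_cases hp : p = 0
    · simp [hp]
    rw [h2 p hp, h2 q hq, div_one]
  exact mem_of_isIntegral O h5 (Algebra.IsAlgebraic.isAlgebraic f).isIntegral

end Place

end Pool.Agent.Helper16.WSemi
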