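import Mathlib

/-!
# Pointed curves over the complex numbers, their Weierstrass semigroups, and the
# dimension of the locus of pointed curves with a given semigroup

Curves are given by their function fields, points by valuation subrings.
-/

namespace Pool.Agent.Helper16.WSemi

open IntermediateField

/-- `F` is a field of algebraic functions of one variable over `K`: a finite extension of `K(z)`
for some element `z` that is transcendental over `K`. -/
def IsFunctionField (K F : Type*) [Field K] [Field F] [Algebra K F] : Prop :=
  ∃ z : F, Transcendental K z ∧ FiniteDimensional K⟮z⟯ F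

/-- A place of `F/K` (for `K` algebraically closed: a point of the smooth projective curve with
function field `F`): a valuation subring of `F` which contains `K` and is not `F` itself. -/
def IsPlace (K : Type*) {F : Type*} [Field K] [Field F] [Algebra K F]
    (O : ValuationSubring F) : Prop :=
  (∀ c : K, algebraMap K F c ∈ O) ∧ O ≠ ⊤

/-- `f` has a pole of order exactly `n` at `O`: the maximal ideal of `O` is generated by some
`π`, and `f * π ^ n` is a unit of `O`. -/
def PoleOrder {F : Type*} [Field F] (O : ValuationSubring F) (f : F) (n : ℕ) : Prop :=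
  ∃ π : O, IsLocalRing.maximalIdeal O = Ideal.span {π} ∧ ∃ u : Oˣ, f * (π : F) ^ n = ((u : O) : F)

/-- `f` is regular away from the point `O`. -/
def RegularAway (K : Type*) {F : Type*} [Field K] [Field F] [Algebra K F]
    (O : ValuationSubring F) (f : F) : Prop :=
  ∀ O' : ValuationSubring F, IsPlace K O' → O' ≠ O → f ∈ O'

/-- A pointed curve over `ℂ`, given by the function field `F` of the curve and the valuation
subring `O` of the point. -/
structure PointedCurve where
  /-- the function field of the curve -/
  F : Type
  [instField : Field F]
  [instAlgebra : Algebra ℂ F]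
  isFunctionField : IsFunctionField ℂ F
  /-- the local ring of the point -/
  O : ValuationSubring F
  isPlace : IsPlace ℂ O

attribute [instance] PointedCurve.instField PointedCurve.instAlgebra

/-- The Weierstrass semigroup of the pointed curve `C`. -/
def PointedCurve.semigroup (C : PointedCurve) : Set ℕ :=
  {n | ∃ f : C.F, RegularAway ℂ C.O f ∧ PoleOrder C.O f n}

/-- The pointed curve `C` comes by extension of scalars from a pointed curve over the
(algebraically closed) subfield `k` of `ℂ`: there is a subfield `F₀` of the function field `F` of
`C`, a function field of one variable over `k`, with `F = ℂ(F₀)`, such that the valuation ring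
`O` of the point restricts to a nontrivial valuation ring of `F₀`. -/
def PointedCurve.DefinedOver (C : PointedCurve) (k : IntermediateField ℚ ℂ) : Prop :=
  ∃ F₀ : IntermediateField k C.F, IsFunctionField k F₀ ∧
    IntermediateField.adjoin ℂ (F₀ : Set C.F) = ⊤ ∧ ∃ f ∈ F₀, f ∉ C.O

/-- The least transcendence degree over `ℚ` of an algebraically closed subfield of `ℂ` over which
the pointed curve `C` is defined.  This is the transcendence degree over `ℚ` of the residue field
of the point of the moduli space (a variety over `ℚ`) which `C` defines. -/
noncomputable def PointedCurve.moduliTrdeg (C : PointedCurve) : ℕ∞ :=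
  ⨅ (k : IntermediateField ℚ ℂ) (_ : IsAlgClosed k ∧ C.DefinedOver k),
    Cardinal.toENat (Algebra.trdeg ℚ k)

/-- The dimension of the locus of pointed curves with Weierstrass semigroup `S` in the moduli
space of pointed curves. -/
noncomputable def locusDim (S : Set ℕ) : ℕ∞ :=
  ⨆ (C : PointedCurve) (_ : C.semigroup = S), C.moduliTrdeg

/-- The number of gaps of `S`. -/
noncomputable def genus (S : Set ℕ) : ℕ := Sᶜ.ncard

/-- The codimension, in the moduli space of pointed curves of genus `g` (which has dimension
`3 * g - 2`), of the locus of pointed curves with Weierstrass semigroup `S`; here `g` is the number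
of gaps of `S`. -/
noncomputable def locusCodim (S : Set ℕ) : ℕ∞ := ((3 * genus S - 2 : ℕ) : ℕ∞) - locusDim S

/-- The numerical semigroup generated by `30`, `35` and `42`. -/
def semi : AddSubmonoid ℕ := AddSubmonoid.closure {30, 35, 42}

/-- The exponents of the monomials `x ^ i * y ^ j * z ^ k` with `i < 5`, `j < 6` of weight
`42 * i + 35 * j + 30 * k` less than `210`. -/
def expo : Finset (ℕ × ℕ × ℕ) :=
  (Finset.range 5 ×ˢ Finset.range 6 ×ˢ Finset.range 7).filter
    fun e => 42 * e.1 + 35 * e.2.1 + 30 * e.2.2 < 210

/-- The combination with coefficients `a` of the monomials `x ^ i * y ^ j * z ^ k` with exponents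
in `expo`. -/
def combo {K F : Type*} [Field K] [Field F] [Algebra K F] (a : expo → K) (x y z : F) : F :=
  ∑ e : expo, algebraMap K F (a e) * (x ^ e.1.1 * y ^ e.1.2.1 * z ^ e.1.2.2)

/-- The pointed curve `C` is given by the equations
`x ^ 5 = z ^ 7 + ∑ a_e x ^ i y ^ j z ^ k` and `y ^ 6 = z ^ 7 + ∑ b_e x ^ i y ^ j z ^ k`
(sums over `e = (i, j, k)` in `expo`), where `x`, `y`, `z` generate the function field, are
regular away from the marked point and have poles of order `42`, `35`, `30` there. -/
def PointedCurve.HasEquations (C : PointedCurve) (a b : expo → ℂ) : Prop :=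
  ∃ x y z : C.F,
    (RegularAway ℂ C.O x ∧ PoleOrder C.O x 42) ∧
    (RegularAway ℂ C.O y ∧ PoleOrder C.O y 35) ∧
    (RegularAway ℂ C.O z ∧ PoleOrder C.O z 30) ∧
    x ^ 5 = z ^ 7 + combo a x y z ∧ y ^ 6 = z ^ 7 + combo b x y z ∧
    IntermediateField.adjoin ℂ {x, y, z} = ⊤

/-- Isomorphism of pointed curves. -/
def PointedCurve.Iso (C C' : PointedCurve) : Prop :=
  ∃ φ : C.F ≃ₐ[ℂ] C'.F, ∀ f : C.F, f ∈ C.O ↔ φ f ∈ C'.O

end Pool.Agent.Helper16.WSemi
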