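import Pool.Agent.Helper16.WSemi.Normal2

/-!
# Descent to a field of definition of small transcendence degree
-/

namespace Pool.Agent.Helper16.WSemi

open IntermediateField Polynomial

section Gen

variable {K F : Type*} [Field K] [Field F] [Algebra K F]

lemma isFunctionField_adjoin {z : F} (hz : Transcendental K z) {T : Set F} (hT : T.Finite)
    (hzT : z ∈ T) (halg : ∀ t ∈ T, IsAlgebraic K⟮z⟯ t) :
    IsFunctionField K (IntermediateField.adjoin K T) := by
  set L := IntermediateField.adjoin K T with hL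
  have hTL : T ⊆ L := IntermediateField.subset_adjoin _ _
  set z' : L := ⟨z, hTL hzT⟩ with hz'
  have hmap : (K⟮z'⟯).map L.val = K⟮z⟯ := by
    rw [IntermediateField.adjoin_map, Set.image_singleton]
    rfl
  have hz't : Transcendental K z' := by
    intro h
    apply hz
    exact h.algHom L.val
  refine isFunctionField_of_generators (z := z') hz't (T := (Subtype.val : L → F) ⁻¹' T)
    (hT.preimage Subtype.val_injective.injOn) ?_ ?_
  · intro t ht
    have h1 := halg t.1 ht
    have hmem : ∀ r : K⟮z'⟯, L.val (r : L) ∈ K⟮z⟯ := by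
      intro r
      rw [← hmap]
      exact ⟨r, r.2, rfl⟩
    let f : K⟮z'⟯ →+* K⟮z⟯ :=
      ((L.val : L →+* F).comp (algebraMap K⟮z'⟯ L)).codRestrict K⟮z⟯.toSubring hmem
    have hf : Function.Surjective f := by
      rintro ⟨r, hr⟩
      rw [← hmap] at hr
      obtain ⟨s, hs, rfl⟩ := hr
      exact ⟨⟨s, hs⟩, rfl⟩
    exact IsAlgebraic.of_ringHom_of_comp_eq (S := K⟮z⟯) (B := F) (g := (L.val : L →+* F)) (f := f)
      h1 hf L.val.injective rfl
  · have h1 : (IntermediateField.adjoin K ((Subtype.val : L → F) ⁻¹' T)).map L.val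
        = (⊤ : IntermediateField K L).map L.val := by
      rw [IntermediateField.adjoin_map]
      have h2 : (L.val : L → F) '' ((Subtype.val : L → F) ⁻¹' T) = T := by
        ext w
        constructor
        · rintro ⟨v, hv, rfl⟩
          exact hv
        · intro hw
          exact ⟨⟨w, hTL hw⟩, hw, rfl⟩
      rw [h2, ← AlgHom.fieldRange_eq_map, IntermediateField.fieldRange_val]
    exact IntermediateField.map_injective L.val h1

end Gen

section Alg

variable {K F : Type*} [Field K] [Field F] [Algebra K F]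

lemma valuation_combo_lt {V : ValuationSubring F} (hV : ∀ c : K, algebraMap K F c ∈ V)
    {x y z : F} (hz : z ∈ V) {M : V.ValueGroup} (hM : 1 < M) (hx : V.valuation x ^ 5 ≤ M)
    (hy : V.valuation y ^ 6 ≤ M) (a : expo → K) :
    V.valuation (combo a x y z) < M := by
  have hM0 : M ≠ 0 := (lt_trans zero_lt_one hM).ne'
  rw [combo]
  refine V.valuation.map_sum_lt hM0 ?_
  rintro ⟨⟨i, j, k⟩, he⟩ _
  have he' := he
  simp only [expo, Finset.mem_filter, Finset.mem_product, Finset.mem_range] at he'
  rw [map_mul, map_mul, map_mul, map_pow, map_pow, map_pow]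
  have h1 : V.valuation (algebraMap K F (a ⟨(i, j, k), he⟩)) ≤ 1 := (V.valuation_le_one_iff _).2 (hV _)
  have h2 : V.valuation z ^ k ≤ 1 := pow_le_one₀ zero_le ((V.valuation_le_one_iff _).2 hz)
  have h3 : V.valuation x ^ i * V.valuation y ^ j < M := by
    have h4 : (V.valuation x ^ i * V.valuation y ^ j) ^ 30 ≤ M ^ (6 * i + 5 * j) := by
      calc (V.valuation x ^ i * V.valuation y ^ j) ^ 30
          = (V.valuation x ^ 5) ^ (6 * i) * (V.valuation y ^ 6) ^ (5 * j) := by
            rw [mul_pow, ← pow_mul, ← pow_mul, ← pow_mul, ← pow_mul]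
            congr 2 <;> ring
        _ ≤ M ^ (6 * i) * M ^ (5 * j) := by gcongr
        _ = M ^ (6 * i + 5 * j) := by rw [pow_add]
    have h5 : M ^ (6 * i + 5 * j) < M ^ 30 := pow_lt_pow_right₀ hM (by omega)
    exact lt_of_pow_lt_pow_left₀ 30 zero_le (lt_of_le_of_lt h4 h5)
  calc V.valuation (algebraMap K F (a ⟨(i, j, k), he⟩)) *
        (V.valuation x ^ i * V.valuation y ^ j * V.valuation z ^ k)
      ≤ 1 * (V.valuation x ^ i * V.valuation y ^ j * 1) := by gcongr
    _ = V.valuation x ^ i * V.valuation y ^ j := by rw [one_mul, mul_one]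
    _ < M := h3

lemma mem_of_relations {V : ValuationSubring F} (hV : ∀ c : K, algebraMap K F c ∈ V)
    {x y z : F} (hz : z ∈ V) {a b : expo → K} (hx : x ^ 5 = z ^ 7 + combo a x y z)
    (hy : y ^ 6 = z ^ 7 + combo b x y z) : x ∈ V ∧ y ∈ V := by
  set M : V.ValueGroup := max (V.valuation x ^ 5) (V.valuation y ^ 6) with hMdef
  have hM : M ≤ 1 := by
    by_contra hcon
    push Not at hcon
    have h1 := valuation_combo_lt hV hz hcon (le_max_left _ _) (le_max_right _ _) a
    have h2 := valuation_combo_lt hV hz hcon (le_max_left _ _) (le_max_right _ _) b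
    have h3 : V.valuation (z ^ 7) < M := by
      refine lt_of_le_of_lt ?_ hcon
      rw [map_pow]
      exact pow_le_one₀ zero_le ((V.valuation_le_one_iff _).2 hz)
    have h4 : V.valuation x ^ 5 < M := by
      rw [← map_pow, hx]
      exact V.valuation.map_add_lt h3 h1
    have h5 : V.valuation y ^ 6 < M := by
      rw [← map_pow, hy]
      exact V.valuation.map_add_lt h3 h2
    exact lt_irrefl _ (max_lt h4 h5)
  constructor
  · rw [← V.valuation_le_one_iff]
    exact (pow_le_one_iff_of_nonneg zero_le (by norm_num)).1 (le_trans (le_max_left _ _) hM)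
  · rw [← V.valuation_le_one_iff]
    exact (pow_le_one_iff_of_nonneg zero_le (by norm_num)).1 (le_trans (le_max_right _ _) hM)

lemma isAlgebraic_of_relations {x y z : F} {a b : expo → K}
    (hx : x ^ 5 = z ^ 7 + combo a x y z)
    (hy : y ^ 6 = z ^ 7 + combo b x y z) : IsAlgebraic K⟮z⟯ x ∧ IsAlgebraic K⟮z⟯ y := by
  have h : ∀ V : ValuationSubring F, (∀ r : Algebra.adjoin K {z}, algebraMap _ F r ∈ V) →
      x ∈ V ∧ y ∈ V := by
    intro V hV
    have h1 : ∀ c : K, algebraMap K F c ∈ V := fun c =>
      hV (algebraMap K (Algebra.adjoin K {z}) c)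
    have h2 : z ∈ V := hV ⟨z, Algebra.subset_adjoin rfl⟩
    exact mem_of_relations h1 h2 hx hy
  rw [isAlgebraic_adjoin_iff, isAlgebraic_adjoin_iff]
  exact ⟨(isIntegral_of_forall_mem fun V hV => (h V hV).1).isAlgebraic,
    (isIntegral_of_forall_mem fun V hV => (h V hV).2).isAlgebraic⟩

end Alg

end Pool.Agent.Helper16.WSemi
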