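import Pool.Agent.Helper16.WSemi.Descent

/-!
# The dimension bound
-/

namespace Pool.Agent.Helper16.WSemi

open IntermediateField Polynomial

lemma adjoin_preimage_eq_top {K F : Type*} [Field K] [Field F] [Algebra K F] (T : Set F) :
    IntermediateField.adjoin K ((Subtype.val : IntermediateField.adjoin K T → F) ⁻¹' T) = ⊤ := by
  set L := IntermediateField.adjoin K T with hL
  have hTL : T ⊆ L := IntermediateField.subset_adjoin _ _
  have h1 : (IntermediateField.adjoin K ((Subtype.val : L → F) ⁻¹' T)).map L.val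
      = (⊤ : IntermediateField K L).map L.val := by
    rw [IntermediateField.adjoin_map]
    have h2 : (L.val : L → F) '' ((Subtype.val : L → F) ⁻¹' T) = T := by
      ext w
      constructor
      · rintro ⟨v, hv, rfl⟩
        exact hv
      · intro hw
        exact ⟨⟨w, hTL hw⟩, hw, rfl⟩
    rw [h2, ← AlgHom.fieldRange_eq_map, IntermediateField.fieldRange_val]
  exact IntermediateField.map_injective L.val h1

lemma exists_field (T : Finset ℂ) : ∃ k : IntermediateField ℚ ℂ, IsAlgClosed k ∧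
    (T : Set ℂ) ⊆ k ∧ Algebra.trdeg ℚ k ≤ T.card := by
  set k0 := IntermediateField.adjoin ℚ (T : Set ℂ) with hk0
  set k1 := algebraicClosure k0 ℂ with hk1
  have h1 : IsAlgClosed k1 := by
    rw [← IsAlgClosed.algebraicClosure_eq_bot_iff (F := k1) (E := ℂ)]
    exact algebraicClosure.algebraicClosure_eq_bot k0 ℂ
  refine ⟨k1.restrictScalars ℚ, h1, ?_, ?_⟩
  · intro t ht
    have h2 : t ∈ k0 := IntermediateField.subset_adjoin _ _ ht
    exact IntermediateField.algebraMap_mem k1 (⟨t, h2⟩ : k0)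
  · change Algebra.trdeg ℚ k1 ≤ _
    have h2 := trdeg_add_eq ℚ k0 (A := k1)
    have h3 : Algebra.trdeg k0 k1 = 0 := trdeg_eq_zero
    rw [h3, add_zero] at h2
    rw [← h2]
    have h4 : Algebra.trdeg ℚ k0 ≤ Cardinal.mk ((Subtype.val : k0 → ℂ) ⁻¹' (T : Set ℂ)) := by
      have : Algebra.IsAlgebraic
          (Algebra.adjoin ℚ ((Subtype.val : k0 → ℂ) ⁻¹' (T : Set ℂ))) k0 := by
        have htop : IntermediateField.adjoin ℚ ((Subtype.val : k0 → ℂ) ⁻¹' (T : Set ℂ)) = ⊤ :=
          adjoin_preimage_eq_top _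
        rw [← isAlgebraic_adjoin_iff_top, htop]
        exact ⟨fun w => isAlgebraic_algebraMap (⟨w, mem_top⟩ : (⊤ : IntermediateField ℚ k0))⟩
      exact Algebra.IsAlgebraic.trdeg_le_cardinalMk ℚ ((Subtype.val : k0 → ℂ) ⁻¹' (T : Set ℂ))
    refine h4.trans ?_
    have h5 : Cardinal.mk ((Subtype.val : k0 → ℂ) ⁻¹' (T : Set ℂ)) ≤ Cardinal.mk (T : Set ℂ) := by
      exact Cardinal.mk_preimage_of_injective _ _ Subtype.val_injective
    refine h5.trans ?_
    simp

section Dim

variable {F : Type} [Field F] [Algebra ℂ F]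

lemma exists_coeff (k : IntermediateField ℚ ℂ) (a : expo → ℂ) (ha : ∀ e, a e ∈ k) :
    ∃ a' : expo → k, ∀ x y z : F, combo a x y z = combo a' x y z :=
  ⟨fun e => ⟨a e, ha e⟩, fun _ _ _ => rfl⟩

lemma definedOver_of_normal_form (C : PointedCurve) {x y z : C.F} {a b : expo → ℂ}
    (hx : x ^ 5 = z ^ 7 + combo a x y z) (hy : y ^ 6 = z ^ 7 + combo b x y z)
    (hgen : IntermediateField.adjoin ℂ {x, y, z} = ⊤) (hz : z ∉ C.O)
    (k : IntermediateField ℚ ℂ) (ha : ∀ e, a e ∈ k) (hb : ∀ e, b e ∈ k) :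
    C.DefinedOver k := by
  obtain ⟨a', ha'⟩ := exists_coeff (F := C.F) k a ha
  obtain ⟨b', hb'⟩ := exists_coeff (F := C.F) k b hb
  rw [ha'] at hx
  rw [hb'] at hy
  obtain ⟨h1, h2⟩ := isAlgebraic_of_relations hx hy
  have hz0 : z ≠ 0 := by
    rintro rfl
    exact hz C.O.zero_mem
  have hz1 : C.O.valuation z ≠ 1 := fun h => hz ((C.O.valuation_le_one_iff _).1 h.le)
  have hzt : Transcendental ℂ z := transcendental_of_valuation C.isPlace.1 hz0 hz1
  have hzk : Transcendental k z := hzt.restrictScalars (algebraMap k ℂ).injective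
  refine ⟨IntermediateField.adjoin k {x, y, z}, ?_, ?_, z,
    IntermediateField.subset_adjoin _ _ (by simp), hz⟩
  · refine isFunctionField_adjoin hzk (by simp) (by simp) ?_
    intro t ht
    simp only [Set.mem_insert_iff, Set.mem_singleton_iff] at ht
    rcases ht with rfl | rfl | rfl
    · exact h1
    · exact h2
    · exact isAlgebraic_algebraMap (⟨t, mem_adjoin_simple_self k t⟩ : k⟮t⟯)
  · rw [eq_top_iff, ← hgen]
    apply IntermediateField.adjoin.mono
    exact IntermediateField.subset_adjoin _ _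

theorem moduliTrdeg_le (C : PointedCurve) (hC : C.semigroup = semi) : C.moduliTrdeg ≤ 134 := by
  classical
  have hW : ∀ n, (∃ f, RegularAway ℂ C.O f ∧ PoleOrder C.O f n) ↔ n ∈ semi := by
    intro n
    rw [← SetLike.mem_coe, ← hC]
    rfl
  obtain ⟨x, y, z, a, b, hx, hy, hz, hx5, hy6, hgen⟩ := normal_form C.isFunctionField C.isPlace hW
  obtain ⟨k, hk1, hk2, hk3⟩ := exists_field (Finset.univ.image a ∪ Finset.univ.image b)
  have hzO : z ∉ C.O := by
    obtain ⟨Γ, hΓ1, hΓ2, hΓ3⟩ := exists_gamma C.isFunctionField C.isPlace ⟨z, 30, hz.2⟩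
    intro h
    have h1 := (C.O.valuation_le_one_iff _).2 h
    rw [(hΓ3 _ _).1 hz.2] at h1
    exact absurd (one_lt_pow₀ hΓ1 (by norm_num : (30 : ℕ) ≠ 0)) (not_lt.2 h1)
  have hdef : C.DefinedOver k := by
    refine definedOver_of_normal_form C hx5 hy6 hgen hzO k ?_ ?_
    · intro e
      exact hk2 (Finset.mem_coe.2 (Finset.mem_union_left _
        (Finset.mem_image_of_mem _ (Finset.mem_univ e))))
    · intro e
      exact hk2 (Finset.mem_coe.2 (Finset.mem_union_right _
        (Finset.mem_image_of_mem _ (Finset.mem_univ e))))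
  have hcard : (Finset.univ.image a ∪ Finset.univ.image b).card ≤ 134 := by
    calc _ ≤ (Finset.univ.image a).card + (Finset.univ.image b).card := Finset.card_union_le _ _
      _ ≤ (Finset.univ : Finset expo).card + (Finset.univ : Finset expo).card :=
        add_le_add Finset.card_image_le Finset.card_image_le
      _ = 134 := by rw [Finset.card_univ, Fintype.card_coe, card_expo]
  refine (iInf₂_le k ⟨hk1, hdef⟩).trans ?_
  have h1 : Cardinal.toENat (Algebra.trdeg ℚ k) ≤
      Cardinal.toENat ((Finset.univ.image a ∪ Finset.univ.image b).card : Cardinal) :=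
    OrderHomClass.mono Cardinal.toENat hk3
  refine h1.trans ?_
  rw [Cardinal.toENat_nat]
  exact_mod_cast hcard

theorem locusDim_le : locusDim semi ≤ 134 :=
  iSup₂_le fun C hC => moduliTrdeg_le C hC

end Dim

end Pool.Agent.Helper16.WSemi
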