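import Pool.Agent.Helper16.WSemi.Basic

/-!
# The value group of a place
-/

namespace Pool.Agent.Helper16.WSemi

open IntermediateField Polynomial

section Disc

variable {K F : Type*} [Field K] [Field F] [Algebra K F]

lemma exists_algebraMap_eq [IsAlgClosed K] {a : F} (ha : IsAlgebraic K a) :
    ∃ c : K, algebraMap K F c = a := by
  have h := IsAlgClosed.splits (minpoly K a)
  have h1 : IsIntegral K a := ha.isIntegral
  have h2 := IsAlgClosed.degree_eq_one_of_irreducible K (minpoly.irreducible h1)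
  obtain ⟨c, hc⟩ := minpoly.mem_range_of_degree_eq_one K a h2
  exact ⟨c, hc⟩

lemma transcendental_of_valuation [IsAlgClosed K] {O : ValuationSubring F}
    (hO : ∀ c : K, algebraMap K F c ∈ O) {a : F} (h0 : a ≠ 0) (h1 : O.valuation a ≠ 1) :
    Transcendental K a := by
  intro ha
  obtain ⟨c, rfl⟩ := exists_algebraMap_eq ha
  apply h1
  exact valuation_const hO (by simpa using h0)

lemma aeval_mem {O : ValuationSubring F} (hO : ∀ c : K, algebraMap K F c ∈ O) {a : F}
    (ha : a ∈ O) (p : K[X]) : aeval a p ∈ O := by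
  rw [aeval_eq_sum_range]
  refine O.toSubring.sum_mem fun i _ => ?_
  rw [Algebra.smul_def]
  exact O.toSubring.mul_mem (hO _) (O.toSubring.pow_mem ha _)

lemma valuation_aeval_of_lt_one {O : ValuationSubring F} (hO : ∀ c : K, algebraMap K F c ∈ O)
    {a : F} (ha : O.valuation a < 1) {p : K[X]} (hp : p ≠ 0) :
    ∃ m : ℕ, O.valuation (aeval a p) = O.valuation a ^ m := by
  have haO : a ∈ O := (O.valuation_le_one_iff _).1 ha.le
  obtain ⟨q, hq1, hq2⟩ := p.exists_eq_pow_rootMultiplicity_mul_and_not_dvd hp 0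
  refine ⟨p.rootMultiplicity 0, ?_⟩
  have h1 : O.valuation (aeval a q) = 1 := by
    have hq3 : q.coeff 0 ≠ 0 := by
      intro h
      apply hq2
      rw [C_0, sub_zero]
      exact X_dvd_iff.2 h
    have h2 : aeval a q = a * aeval a q.divX + algebraMap K F (q.coeff 0) := by
      have h := congrArg (aeval a) (X_mul_divX_add q)
      rw [map_add, map_mul, aeval_X, aeval_C] at h
      exact h.symm
    rw [h2]
    rw [Valuation.map_add_eq_of_lt_right]
    · exact valuation_const hO hq3
    · rw [valuation_const hO hq3, map_mul]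
      calc O.valuation a * O.valuation (aeval a q.divX) ≤ O.valuation a * 1 := by
            gcongr
            exact (O.valuation_le_one_iff _).2 (aeval_mem hO haO _)
        _ < 1 := by simpa using ha
  conv_lhs => rw [hq1]
  simp [h1]

variable {O : ValuationSubring F} {π : O} (hπ : IsLocalRing.maximalIdeal O = Ideal.span {π})

include hπ in
lemma valuation_le_of_lt_one {f : F} (hf : O.valuation f < 1) :
    O.valuation f ≤ O.valuation (π : F) := by
  have hfO : f ∈ O := (O.valuation_le_one_iff _).1 hf.le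
  have h1 : (⟨f, hfO⟩ : O) ∈ IsLocalRing.maximalIdeal O := (O.valuation_lt_one_iff _).2 hf
  rw [hπ, Ideal.mem_span_singleton] at h1
  obtain ⟨g, hg⟩ := h1
  have h2 : f = (π : F) * (g : F) := congrArg Subtype.val hg
  rw [h2, map_mul]
  calc O.valuation (π : F) * O.valuation (g : F) ≤ O.valuation (π : F) * 1 := by
        gcongr
        exact O.valuation_le_one g
    _ = O.valuation (π : F) := mul_one _

include hπ in
lemma valuation_pi_lt_one : O.valuation (π : F) < 1 := by
  have h1 : π ∈ IsLocalRing.maximalIdeal O := by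
    rw [hπ]
    exact Ideal.mem_span_singleton_self π
  exact (O.valuation_lt_one_iff _).1 h1

include hπ in
lemma pi_ne_zero (hO : O ≠ ⊤) : (π : F) ≠ 0 := by
  intro h
  apply hO
  rw [eq_top_iff]
  intro f _
  by_contra hf
  have h1 : O.valuation f⁻¹ < 1 := by
    rw [map_inv₀]
    rw [← O.valuation_le_one_iff, not_le] at hf
    exact inv_lt_one_of_one_lt₀ hf
  have h2 := valuation_le_of_lt_one hπ h1
  rw [h, map_zero, le_zero_iff, Valuation.zero_iff, inv_eq_zero] at h2
  rw [h2] at hf
  exact hf O.zero_mem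

include hπ in
lemma exists_pow_le [IsAlgClosed K] (hF : IsFunctionField K F) (hO : IsPlace K O) {f : F}
    (hf : f ≠ 0) : ∃ m : ℕ, O.valuation (π : F) ^ m ≤ O.valuation f := by
  have h0 := pi_ne_zero hπ hO.2
  have h1 := valuation_pi_lt_one hπ
  have h2 : Transcendental K (π : F) := transcendental_of_valuation hO.1 h0 h1.ne
  have h3 := isAlgebraic_of_transcendental hF h2
  have h4 : IsAlgebraic (Algebra.adjoin K {(π : F)}) f⁻¹ := by
    rw [← isAlgebraic_adjoin_iff]
    exact Algebra.IsAlgebraic.isAlgebraic f⁻¹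
  obtain ⟨y, hy0, hy⟩ := h4.exists_integral_multiple
  have hy1 : (y : F) ∈ (aeval (R := K) (π : F)).range := by
    rw [← Algebra.adjoin_singleton_eq_range_aeval]
    exact y.2
  obtain ⟨p, hp⟩ := hy1
  have hp' : aeval (π : F) p = (y : F) := hp
  have hp0 : p ≠ 0 := by
    rintro rfl
    apply hy0
    apply Subtype.ext
    rw [← hp']
    simp
  have h5 : y • f⁻¹ ∈ O := by
    refine mem_of_isIntegral O ?_ hy
    rintro ⟨r, hr⟩
    rw [Algebra.adjoin_singleton_eq_range_aeval] at hr
    obtain ⟨q, rfl⟩ := hr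
    exact aeval_mem hO.1 π.2 q
  obtain ⟨m, hm⟩ := valuation_aeval_of_lt_one hO.1 h1 hp0
  refine ⟨m, ?_⟩
  rw [← hm, hp']
  have h6 : O.valuation ((y : F) * f⁻¹) ≤ 1 := (O.valuation_le_one_iff _).2 h5
  rw [map_mul, map_inv₀] at h6
  have h7 : 0 < O.valuation f := zero_lt_iff.2 ((Valuation.ne_zero_iff _).2 hf)
  rwa [← div_eq_mul_inv, div_le_one₀ h7] at h6

include hπ in
lemma exists_valuation_eq_pow [IsAlgClosed K] (hF : IsFunctionField K F) (hO : IsPlace K O) {f : F}
    (hf : f ≠ 0) (hf1 : O.valuation f ≤ 1) :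
    ∃ n : ℕ, O.valuation f = O.valuation (π : F) ^ n := by
  have h0 := pi_ne_zero hπ hO.2
  have h1 := valuation_pi_lt_one hπ
  have h01 : 0 < O.valuation (π : F) := zero_lt_iff.2 ((Valuation.ne_zero_iff _).2 h0)
  have h3 : ∃ m : ℕ, O.valuation (π : F) ^ (m + 1) < O.valuation f := by
    obtain ⟨m, hm⟩ := exists_pow_le hπ hF hO hf
    refine ⟨m, lt_of_lt_of_le ?_ hm⟩
    exact pow_lt_pow_right_of_lt_one₀ h01 h1 (Nat.lt_succ_self m)
  classical
  refine ⟨Nat.find h3, ?_⟩
  have h4 := Nat.find_spec h3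
  have h5 : O.valuation f ≤ O.valuation (π : F) ^ Nat.find h3 := by
    rcases Nat.eq_zero_or_pos (Nat.find h3) with h | h
    · rw [h, pow_zero]; exact hf1
    · have := Nat.find_min h3 (m := Nat.find h3 - 1) (by omega)
      rw [Nat.sub_add_cancel h] at this
      exact not_lt.1 this
  refine le_antisymm h5 ?_
  by_contra h6
  push Not at h6
  have h7 : O.valuation (f / (π : F) ^ Nat.find h3) < 1 := by
    rw [map_div₀, map_pow, div_lt_one₀ (pow_pos h01 _)]
    exact h6
  have h8 := valuation_le_of_lt_one hπ h7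
  rw [map_div₀, map_pow, div_le_iff₀ (pow_pos h01 _), ← pow_succ'] at h8
  exact absurd h4 (not_lt.2 h8)

/-- The value group of a place is infinite cyclic once its maximal ideal is principal. -/
lemma exists_gamma [IsAlgClosed K] (hF : IsFunctionField K F) (hO : IsPlace K O)
    (h : ∃ f n, PoleOrder O f n) :
    ∃ Γ : O.ValueGroup, 1 < Γ ∧ (∀ f : F, f ≠ 0 → ∃ n : ℤ, O.valuation f = Γ ^ n) ∧
      ∀ (f : F) (n : ℕ), PoleOrder O f n ↔ O.valuation f = Γ ^ n := by
  obtain ⟨_, _, π, hπ, _⟩ := h
  have h0 := pi_ne_zero hπ hO.2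
  have h1 := valuation_pi_lt_one hπ
  have h01 : 0 < O.valuation (π : F) := zero_lt_iff.2 ((Valuation.ne_zero_iff _).2 h0)
  refine ⟨(O.valuation (π : F))⁻¹, (one_lt_inv₀ h01).2 h1, ?_, ?_⟩
  · intro f hf
    have hf0 : O.valuation f ≠ 0 := (Valuation.ne_zero_iff _).2 hf
    rcases le_or_gt (O.valuation f) 1 with h2 | h2
    · obtain ⟨n, hn⟩ := exists_valuation_eq_pow hπ hF hO hf h2
      exact ⟨-n, by rw [hn]; simp⟩
    · have h3 : O.valuation f⁻¹ ≤ 1 := by
        rw [map_inv₀]
        exact (inv_lt_one_of_one_lt₀ h2).le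
      obtain ⟨n, hn⟩ := exists_valuation_eq_pow hπ hF hO (inv_ne_zero hf) h3
      refine ⟨n, ?_⟩
      rw [map_inv₀] at hn
      rw [zpow_natCast, inv_pow, ← hn, inv_inv]
  · intro f n
    constructor
    · rintro ⟨π', hπ', u, hu⟩
      have h3 : O.valuation (π' : F) = O.valuation (π : F) :=
        le_antisymm (valuation_le_of_lt_one hπ (valuation_pi_lt_one hπ'))
          (valuation_le_of_lt_one hπ' (valuation_pi_lt_one hπ))
      have h4 : O.valuation (f * (π' : F) ^ n) = 1 := by
        rw [hu]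
        exact O.valuation_unit u
      rw [map_mul, map_pow, h3] at h4
      rw [inv_pow]
      exact eq_inv_of_mul_eq_one_left h4
    · intro h
      have h4 : O.valuation (f * (π : F) ^ n) = 1 := by
        rw [map_mul, map_pow, h, inv_pow]
        exact inv_mul_cancel₀ (pow_ne_zero _ h01.ne')
      have h5 : f * (π : F) ^ n ∈ O := (O.valuation_le_one_iff _).1 h4.le
      have h6 : IsUnit (⟨f * (π : F) ^ n, h5⟩ : O) := (O.valuation_eq_one_iff _).2 h4
      exact ⟨π, hπ, h6.unit, rfl⟩

end Disc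

end Pool.Agent.Helper16.WSemi
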