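import Pool.Agent.Helper16.WSemi.ModelReg

/-!
# The Weierstrass semigroup of the point at infinity
-/

namespace Pool.Agent.Helper16.WSemi

open IntermediateField Polynomial

section Infinity

variable {F : Type*} [Field F] [Algebra ℂ F] {x y z : F} {O : ValuationSubring F}

lemma IsModel.isPlace (hO : ∀ c : ℂ, algebraMap ℂ F c ∈ O) (hzO : z ∉ O) : IsPlace ℂ O :=
  ⟨hO, fun h => hzO (h ▸ ValuationSubring.mem_top z)⟩

lemma IsModel.regularAway_iff (hM : IsModel x y z) (hO : ∀ c : ℂ, algebraMap ℂ F c ∈ O)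
    (hzO : z ∉ O) (f : F) : RegularAway ℂ O f ↔ f ∈ finReg z := by
  constructor
  · intro h V hV hzV
    by_cases hT : V = ⊤
    · rw [hT]; exact ValuationSubring.mem_top f
    · exact h V ⟨hV, hT⟩ fun h' => hzO (h' ▸ hzV)
  · intro h V hV hne
    refine h V hV.1 ?_
    by_contra hzV
    exact hne (hM.eq_of_not_mem hV.1 hzV hO hzO)

/-- A function with a simple zero at infinity. -/
lemma IsModel.exists_uniformizer (hM : IsModel x y z) (hO : ∀ c : ℂ, algebraMap ℂ F c ∈ O)
    (hzO : z ∉ O) : ∃ π : O, IsLocalRing.maximalIdeal O = Ideal.span {π} ∧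
      O.valuation (π : F) ^ 30 = (O.valuation z)⁻¹ := by
  have h1 := IsModel.one_lt hzO
  have h0 : 0 < O.valuation z := lt_trans zero_lt_one h1
  have vx : O.valuation x ^ 30 = O.valuation z ^ 42 := by
    calc O.valuation x ^ 30 = (O.valuation x ^ 5) ^ 6 := by rw [← pow_mul]
      _ = O.valuation z ^ 42 := by rw [hM.val_x hO hzO, ← pow_mul]
  have vy : O.valuation y ^ 30 = O.valuation z ^ 35 := by
    calc O.valuation y ^ 30 = (O.valuation y ^ 6) ^ 5 := by rw [← pow_mul]
      _ = O.valuation z ^ 35 := by rw [hM.val_y hO hzO, ← pow_mul]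
  set w : F := x ^ 2 * z ^ 3 / y ^ 5 with hw
  have vw : O.valuation w ^ 30 = (O.valuation z)⁻¹ := by
    rw [hw, map_div₀, map_mul, map_pow, map_pow, map_pow, div_pow, mul_pow]
    have e1 : (O.valuation x ^ 2) ^ 30 = O.valuation z ^ 84 := by
      calc (O.valuation x ^ 2) ^ 30 = (O.valuation x ^ 30) ^ 2 := by rw [← pow_mul, ← pow_mul]
        _ = O.valuation z ^ 84 := by rw [vx, ← pow_mul]
    have e2 : (O.valuation y ^ 5) ^ 30 = O.valuation z ^ 175 := by
      calc (O.valuation y ^ 5) ^ 30 = (O.valuation y ^ 30) ^ 5 := by rw [← pow_mul, ← pow_mul]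
        _ = O.valuation z ^ 175 := by rw [vy, ← pow_mul]
    rw [e1, e2, ← pow_mul, ← pow_add]
    rw [div_eq_iff (pow_pos h0 _).ne', eq_comm, inv_mul_eq_iff_eq_mul₀ h0.ne', ← pow_succ']
  have hw1 : O.valuation w < 1 := by
    by_contra hcon
    push Not at hcon
    have h2 := one_le_pow₀ (n := 30) hcon
    rw [vw] at h2
    exact absurd h2 (not_le.2 (inv_lt_one_of_one_lt₀ h1))
  have hwO : w ∈ O := (O.valuation_le_one_iff _).1 hw1.le
  have hw0 : 0 < O.valuation w := by
    rw [zero_lt_iff]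
    intro h
    rw [h, zero_pow (by norm_num)] at vw
    exact (inv_pos.2 h0).ne vw
  refine ⟨⟨w, hwO⟩, ?_, vw⟩
  ext g
  rw [Ideal.mem_span_singleton, O.valuation_lt_one_iff]
  constructor
  · intro hg
    by_cases hg0 : (g : F) = 0
    · refine ⟨0, ?_⟩
      apply Subtype.ext
      simpa using hg0
    obtain ⟨N, hN⟩ := hM.exists_val hO hzO hg0
    have hN1 : N < 0 := by
      by_contra hcon
      push Not at hcon
      have h2 : O.valuation (g : F) ^ 30 < 1 := pow_lt_one₀ zero_le hg (by norm_num)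
      rw [hN] at h2
      exact absurd h2 (not_lt.2 (one_le_zpow₀ h1.le hcon))
    have h3 : O.valuation (g : F) ≤ O.valuation w := by
      refine le_of_pow_le_pow_left₀ (n := 30) (by norm_num) zero_le ?_
      rw [hN, vw, ← zpow_neg_one]
      exact zpow_le_zpow_right₀ h1.le (by omega)
    have h4 : (g : F) / w ∈ O := by
      rw [← O.valuation_le_one_iff, map_div₀, div_le_one₀ hw0]
      exact h3
    refine ⟨⟨_, h4⟩, ?_⟩
    apply Subtype.ext
    change (g : F) = w * ((g : F) / w)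
    rw [mul_div_cancel₀]
    exact (Valuation.ne_zero_iff _).1 hw0.ne'
  · rintro ⟨c, rfl⟩
    change O.valuation (w * (c : F)) < 1
    rw [map_mul]
    calc O.valuation w * O.valuation (c : F) ≤ O.valuation w * 1 := by
          gcongr
          exact O.valuation_le_one c
      _ < 1 := by simpa using hw1

lemma IsModel.poleOrder_of_val (hM : IsModel x y z) (hO : ∀ c : ℂ, algebraMap ℂ F c ∈ O)
    (hzO : z ∉ O) {f : F} {n : ℕ} (h : O.valuation f ^ 30 = O.valuation z ^ n) :
    PoleOrder O f n := by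
  obtain ⟨π, hπ, vπ⟩ := hM.exists_uniformizer hO hzO
  have h0 : O.valuation z ≠ 0 := (lt_trans zero_lt_one (IsModel.one_lt hzO)).ne'
  have h4 : O.valuation (f * (π : F) ^ n) = 1 := by
    have h5 : O.valuation (f * (π : F) ^ n) ^ 30 = 1 := by
      rw [map_mul, map_pow, mul_pow, h, ← pow_mul, mul_comm n, pow_mul, vπ, inv_pow,
        mul_inv_cancel₀ (pow_ne_zero _ h0)]
    exact (pow_eq_one_iff_of_nonneg zero_le (by norm_num)).1 h5
  have h5 : f * (π : F) ^ n ∈ O := (O.valuation_le_one_iff _).1 h4.le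
  have h6 : IsUnit (⟨f * (π : F) ^ n, h5⟩ : O) := (O.valuation_eq_one_iff _).2 h4
  exact ⟨π, hπ, h6.unit, rfl⟩

lemma IsModel.isAlgebraic (hM : IsModel x y z) : IsAlgebraic ℂ⟮z⟯ x ∧ IsAlgebraic ℂ⟮z⟯ y := by
  constructor
  · have h : IsIntegral ℂ⟮z⟯ x := by
      refine ⟨X ^ 5 - C (polE z polP), monic_X_pow_sub_C _ (by norm_num), ?_⟩
      rw [eval₂_sub, eval₂_X_pow, eval₂_C, hM.hx]
      exact sub_eq_zero.2 (coe_polE polP).symm
    exact h.isAlgebraic
  · have h : IsIntegral ℂ⟮z⟯ y := by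
      refine ⟨X ^ 6 - C (polE z polQ), monic_X_pow_sub_C _ (by norm_num), ?_⟩
      rw [eval₂_sub, eval₂_X_pow, eval₂_C, hM.hy]
      exact sub_eq_zero.2 (coe_polE polQ).symm
    exact h.isAlgebraic

lemma IsModel.isFunctionField (hM : IsModel x y z) : IsFunctionField ℂ F := by
  refine isFunctionField_of_generators hM.hz (T := {x, y, z}) (by simp) ?_ hM.hgen
  intro t ht
  simp only [Set.mem_insert_iff, Set.mem_singleton_iff] at ht
  rcases ht with rfl | rfl | rfl
  · exact hM.isAlgebraic.1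
  · exact hM.isAlgebraic.2
  · exact isAlgebraic_algebraMap (⟨t, mem_adjoin_simple_self ℂ t⟩ : ℂ⟮t⟯)

lemma IsModel.val_of_poleOrder (hM : IsModel x y z) (hO : ∀ c : ℂ, algebraMap ℂ F c ∈ O)
    (hzO : z ∉ O) {f : F} {n : ℕ} (h : PoleOrder O f n) :
    O.valuation f ^ 30 = O.valuation z ^ n := by
  obtain ⟨Γ, hΓ1, hΓ2, hΓ3⟩ := exists_gamma hM.isFunctionField (IsModel.isPlace hO hzO) ⟨f, n, h⟩
  have h1 : O.valuation z = Γ ^ 30 := (hΓ3 _ _).1 (hM.poleOrder_of_val hO hzO rfl)
  rw [(hΓ3 _ _).1 h, h1, ← pow_mul, ← pow_mul, mul_comm]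

/-- The Weierstrass semigroup at infinity. -/
theorem IsModel.semigroup (hM : IsModel x y z) (hO : ∀ c : ℂ, algebraMap ℂ F c ∈ O)
    (hzO : z ∉ O) (n : ℕ) : (∃ f : F, RegularAway ℂ O f ∧ PoleOrder O f n) ↔ n ∈ semi := by
  have h1 := IsModel.one_lt hzO
  have h0 : O.valuation z ≠ 0 := (lt_trans zero_lt_one h1).ne'
  constructor
  · rintro ⟨f, hf, hfn⟩
    rw [hM.regularAway_iff hO hzO] at hf
    have hv := hM.val_of_poleOrder hO hzO hfn
    obtain ⟨a, rfl⟩ := hM.exists_repr f
    have ha : ∃ e, a e ≠ 0 := by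
      by_contra hcon
      push Not at hcon
      have h2 : ∑ e, a e • mon x y e = 0 :=
        Finset.sum_eq_zero fun e _ => by rw [hcon e, zero_smul]
      rw [h2, map_zero, zero_pow (by norm_num)] at hv
      exact (pow_ne_zero _ h0) hv.symm
    obtain ⟨e, he, h3, -⟩ := hM.exists_term hO hzO a ha
    obtain ⟨r, hr⟩ := hM.exists_polynomial (a e) e (hM.component_mem a hf e)
    have hr0 : r ≠ 0 := by
      rintro rfl
      apply he
      apply Subtype.ext
      rw [hr]; simp
    have h2 : ∑ e, a e • mon x y e = ∑ e, (a e : F) * mon x y e := rfl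
    rw [h2, h3, hr] at hv
    have h4 := hM.val_term hO hzO e hr0 (one_ne_zero (α := ℂ[X]))
    rw [map_one, div_one, hv, ← zpow_natCast] at h4
    have h5 := (zpow_right_strictMono₀ h1).injective h4
    rw [natDegree_one] at h5
    rw [mem_semi_iff]
    refine ⟨e.1, e.2, r.natDegree, e.1.2, e.2.2, ?_⟩
    rw [wt] at h5
    push_cast at h5
    omega
  · intro hn
    rw [mem_semi_iff] at hn
    obtain ⟨i, j, k, hi, hj, rfl⟩ := hn
    refine ⟨mon x y (⟨i, hi⟩, ⟨j, hj⟩) * z ^ k, ?_, ?_⟩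
    · rw [hM.regularAway_iff hO hzO]
      have hxm : x ∈ finReg z := by
        intro V hV hzV
        have h2 : x ^ 5 ∈ V := by
          rw [hM.hx]; exact aeval_mem hV hzV _
        rw [← V.valuation_le_one_iff] at h2 ⊢
        rw [map_pow] at h2
        exact (pow_le_one_iff_of_nonneg zero_le (by norm_num)).1 h2
      have hym : y ∈ finReg z := by
        intro V hV hzV
        have h2 : y ^ 6 ∈ V := by
          rw [hM.hy]; exact aeval_mem hV hzV _
        rw [← V.valuation_le_one_iff] at h2 ⊢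
        rw [map_pow] at h2
        exact (pow_le_one_iff_of_nonneg zero_le (by norm_num)).1 h2
      have hzm : z ∈ finReg z := fun V _ hzV => hzV
      exact mul_mem (mul_mem (pow_mem hxm _) (pow_mem hym _)) (pow_mem hzm _)
    · apply hM.poleOrder_of_val hO hzO
      rw [map_mul, mul_pow, hM.val_mon hO hzO, map_pow, ← pow_mul, ← pow_add, wt]
      congr 1
      ring

end Infinity

section Exists

/-- There is a model. -/
lemma exists_model : ∃ (F : Type) (_ : Field F) (_ : Algebra ℂ F) (x y z : F), IsModel x y z := by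
  set Ω := AlgebraicClosure (RatFunc ℂ) with hΩ
  set z : Ω := algebraMap (RatFunc ℂ) Ω RatFunc.X with hz
  obtain ⟨x, hx⟩ := IsAlgClosed.exists_pow_nat_eq (aeval z polP) (show 0 < 5 by norm_num)
  obtain ⟨y, hy⟩ := IsAlgClosed.exists_pow_nat_eq (aeval z polQ) (show 0 < 6 by norm_num)
  have hzt : Transcendental ℂ z := by
    rw [hz]
    exact (transcendental_algebraMap_iff (algebraMap (RatFunc ℂ) Ω).injective).2
      RatFunc.transcendental_X
  set T : Set Ω := {x, y, z} with hT
  have hxT : x ∈ IntermediateField.adjoin ℂ T := IntermediateField.subset_adjoin _ _ (by simp [hT])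
  have hyT : y ∈ IntermediateField.adjoin ℂ T := IntermediateField.subset_adjoin _ _ (by simp [hT])
  have hzT : z ∈ IntermediateField.adjoin ℂ T := IntermediateField.subset_adjoin _ _ (by simp [hT])
  refine ⟨IntermediateField.adjoin ℂ T, inferInstance, inferInstance,
    ⟨x, hxT⟩, ⟨y, hyT⟩, ⟨z, hzT⟩, ?_, ?_, ?_, ?_⟩
  · intro h
    exact hzt (h.algHom (IntermediateField.adjoin ℂ T).val)
  · exact Subtype.ext (hx.trans
      (aeval_algHom_apply (IntermediateField.adjoin ℂ T).val ⟨z, hzT⟩ polP))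
  · exact Subtype.ext (hy.trans
      (aeval_algHom_apply (IntermediateField.adjoin ℂ T).val ⟨z, hzT⟩ polQ))
  · rw [← adjoin_preimage_eq_top (K := ℂ) T]
    congr 1
    ext w
    simp only [hT, Set.mem_insert_iff, Set.mem_singleton_iff, Set.mem_preimage, Subtype.ext_iff]

/-- There is a pointed curve with Weierstrass semigroup `semi`. -/
theorem exists_pointedCurve : ∃ C : PointedCurve, C.semigroup = semi := by
  obtain ⟨F, _, _, x, y, z, hM⟩ := exists_model
  obtain ⟨O, hO, hzO⟩ := exists_not_mem hM.hz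
  refine ⟨⟨F, hM.isFunctionField, O, IsModel.isPlace hO hzO⟩, ?_⟩
  ext n
  exact hM.semigroup hO hzO n

end Exists

end Pool.Agent.Helper16.WSemi
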