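import Pool.Agent.Helper16.WSemi.Existence

/-!
# The gaps of the semigroup
-/

namespace Pool.Agent.Helper16.WSemi

/-- A decidable form of membership. -/
def inSemi (n : ℕ) : Bool :=
  (List.range 5).any fun i => (List.range 6).any fun j =>
    decide (42 * i + 35 * j ≤ n) && decide ((n - (42 * i + 35 * j)) % 30 = 0)

lemma inSemi_iff (n : ℕ) : inSemi n = true ↔ n ∈ semi := by
  rw [mem_semi_iff]
  simp only [inSemi, List.any_eq_true, List.mem_range, Bool.and_eq_true, decide_eq_true_eq]
  constructor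
  · rintro ⟨i, hi, j, hj, h1, h2⟩
    exact ⟨i, j, (n - (42 * i + 35 * j)) / 30, hi, hj, by omega⟩
  · rintro ⟨i, j, k, hi, hj, rfl⟩
    exact ⟨i, hi, j, hj, by omega, by omega⟩

lemma exists_residue : ∀ r < 30, ∃ i < 5, ∃ j < 6, (42 * i + 35 * j) % 30 = r := by
  decide +kernel

lemma mem_of_ge (n : ℕ) (hn : 314 ≤ n) : n ∈ semi := by
  obtain ⟨i, hi, j, hj, h⟩ := exists_residue (n % 30) (Nat.mod_lt _ (by norm_num))
  rw [mem_semi_iff]
  refine ⟨i, j, (n - (42 * i + 35 * j)) / 30, hi, hj, ?_⟩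
  omega

lemma compl_eq : ((semi : Set ℕ)ᶜ) =
    (((Finset.range 314).filter fun n => inSemi n = false : Finset ℕ) : Set ℕ) := by
  ext n
  simp only [Set.mem_compl_iff, SetLike.mem_coe, Finset.coe_filter, Finset.mem_range,
    Set.mem_ofPred_eq]
  constructor
  · intro h
    refine ⟨?_, ?_⟩
    · by_contra h'
      exact h (mem_of_ge n (not_lt.1 h'))
    · rw [← Bool.not_eq_true, inSemi_iff]
      exact h
  · rintro ⟨_, h⟩ h'
    rw [← inSemi_iff] at h'
    rw [h'] at h
    exact absurd h (by decide)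

lemma card_gaps : ((Finset.range 314).filter fun n => inSemi n = false).card = 157 := by
  decide +kernel

theorem finite_compl : ((semi : Set ℕ)ᶜ).Finite := by
  rw [compl_eq]
  exact Finset.finite_toSet _

theorem ncard_compl : ((semi : Set ℕ)ᶜ).ncard = 157 := by
  rw [compl_eq, Set.ncard_coe_finset, card_gaps]

end Pool.Agent.Helper16.WSemi
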