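import Pool.Agent.Helper16.WSemi.Val

/-!
# The curve `x ^ 5 = z ^ 7 + 1`, `y ^ 6 = z ^ 7 + 2`
-/

namespace Pool.Agent.Helper16.WSemi

open IntermediateField Polynomial

/-- The polynomial `X ^ 7 + 1`. -/
noncomputable def polP : ℂ[X] := X ^ 7 + C 1

/-- The polynomial `X ^ 7 + 2`. -/
noncomputable def polQ : ℂ[X] := X ^ 7 + C 2

lemma polP_ne_zero : polP ≠ 0 := by
  rw [polP]; exact X_pow_add_C_ne_zero (by norm_num) 1

lemma polQ_ne_zero : polQ ≠ 0 := by
  rw [polQ]; exact X_pow_add_C_ne_zero (by norm_num) 2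

lemma natDegree_polP : polP.natDegree = 7 := by
  rw [polP]; exact natDegree_X_pow_add_C

lemma natDegree_polQ : polQ.natDegree = 7 := by
  rw [polQ]; exact natDegree_X_pow_add_C

/-- The weight of the monomial `x ^ i * y ^ j`. -/
def wt (e : Fin 5 × Fin 6) : ℕ := 42 * e.1 + 35 * e.2

lemma wt_inj : ∀ e e' : Fin 5 × Fin 6, wt e % 30 = wt e' % 30 → e = e' := by
  decide +kernel

section Model

variable {F : Type*} [Field F] [Algebra ℂ F]

/-- The function field `F` of the curve, with its generators. -/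
structure IsModel (x y z : F) : Prop where
  hz : Transcendental ℂ z
  hx : x ^ 5 = aeval z polP
  hy : y ^ 6 = aeval z polQ
  hgen : IntermediateField.adjoin ℂ {x, y, z} = ⊤

variable {x y z : F}

/-- The monomial `x ^ i * y ^ j`. -/
def mon (x y : F) (e : Fin 5 × Fin 6) : F := x ^ (e.1 : ℕ) * y ^ (e.2 : ℕ)

section Infinity

variable {V : ValuationSubring F}

omit [Algebra ℂ F] in
lemma IsModel.one_lt (h : z ∉ V) : 1 < V.valuation z := by
  rw [← V.valuation_le_one_iff, not_le] at h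
  exact h

lemma IsModel.val_x (hM : IsModel x y z) (hV : ∀ c : ℂ, algebraMap ℂ F c ∈ V) (hzV : z ∉ V) :
    V.valuation x ^ 5 = V.valuation z ^ 7 := by
  rw [← map_pow, hM.hx, valuation_aeval_of_one_lt hV (IsModel.one_lt hzV) polP_ne_zero,
    natDegree_polP]

lemma IsModel.val_y (hM : IsModel x y z) (hV : ∀ c : ℂ, algebraMap ℂ F c ∈ V) (hzV : z ∉ V) :
    V.valuation y ^ 6 = V.valuation z ^ 7 := by
  rw [← map_pow, hM.hy, valuation_aeval_of_one_lt hV (IsModel.one_lt hzV) polQ_ne_zero,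
    natDegree_polQ]

lemma IsModel.val_mon (hM : IsModel x y z) (hV : ∀ c : ℂ, algebraMap ℂ F c ∈ V) (hzV : z ∉ V)
    (e : Fin 5 × Fin 6) : V.valuation (mon x y e) ^ 30 = V.valuation z ^ wt e := by
  rw [mon, map_mul, map_pow, map_pow, wt]
  have h1 : (V.valuation x ^ (e.1 : ℕ)) ^ 30 = V.valuation z ^ (42 * (e.1 : ℕ)) := by
    calc (V.valuation x ^ (e.1 : ℕ)) ^ 30 = (V.valuation x ^ 5) ^ (6 * (e.1 : ℕ)) := by
          rw [← pow_mul, ← pow_mul]; congr 1; ring
      _ = V.valuation z ^ (42 * (e.1 : ℕ)) := by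
          rw [hM.val_x hV hzV, ← pow_mul]; congr 1; ring
  have h2 : (V.valuation y ^ (e.2 : ℕ)) ^ 30 = V.valuation z ^ (35 * (e.2 : ℕ)) := by
    calc (V.valuation y ^ (e.2 : ℕ)) ^ 30 = (V.valuation y ^ 6) ^ (5 * (e.2 : ℕ)) := by
          rw [← pow_mul, ← pow_mul]; congr 1; ring
      _ = V.valuation z ^ (35 * (e.2 : ℕ)) := by
          rw [hM.val_y hV hzV, ← pow_mul]; congr 1; ring
  rw [mul_pow, h1, h2, pow_add]

/-- Each nonzero element of `ℂ(z)` is a quotient of two nonzero polynomials in `z`. -/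
lemma exists_quot {z : F} (a : ℂ⟮z⟯) (ha : a ≠ 0) :
    ∃ p q : ℂ[X], p ≠ 0 ∧ q ≠ 0 ∧ (a : F) = aeval z p / aeval z q := by
  obtain ⟨p, q, h⟩ := (IntermediateField.mem_adjoin_simple_iff ℂ (a : F)).1 a.2
  refine ⟨p, q, ?_, ?_, h⟩
  · rintro rfl
    apply ha
    apply Subtype.ext
    rw [h]; simp
  · rintro rfl
    apply ha
    apply Subtype.ext
    rw [h]; simp

/-- The valuation of a term. -/
lemma IsModel.val_term (hM : IsModel x y z) (hV : ∀ c : ℂ, algebraMap ℂ F c ∈ V) (hzV : z ∉ V)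
    (e : Fin 5 × Fin 6) {p q : ℂ[X]} (hp : p ≠ 0) (hq : q ≠ 0) :
    V.valuation ((aeval z p / aeval z q) * mon x y e) ^ 30 =
      V.valuation z ^ ((30 * p.natDegree + wt e : ℤ) - 30 * q.natDegree) := by
  have h0 : V.valuation z ≠ 0 := (lt_trans zero_lt_one (IsModel.one_lt hzV)).ne'
  rw [map_mul, map_div₀, valuation_aeval_of_one_lt hV (IsModel.one_lt hzV) hp,
    valuation_aeval_of_one_lt hV (IsModel.one_lt hzV) hq, mul_pow, hM.val_mon hV hzV,
    div_pow, ← pow_mul, ← pow_mul, zpow_sub₀ h0, zpow_add₀ h0]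
  rw [show ((30 : ℤ) * p.natDegree) = ((30 * p.natDegree : ℕ) : ℤ) by push_cast; ring,
    show ((30 : ℤ) * q.natDegree) = ((30 * q.natDegree : ℕ) : ℤ) by push_cast; ring,
    zpow_natCast, zpow_natCast, zpow_natCast, mul_comm p.natDegree, mul_comm q.natDegree,
    div_mul_eq_mul_div]

/-- The valuation of an element of `F` is the valuation of one of its terms. -/
lemma IsModel.exists_term (hM : IsModel x y z) (hV : ∀ c : ℂ, algebraMap ℂ F c ∈ V) (hzV : z ∉ V)
    (a : Fin 5 × Fin 6 → ℂ⟮z⟯) (ha : ∃ e, a e ≠ 0) :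
    ∃ e, a e ≠ 0 ∧ V.valuation (∑ e, (a e : F) * mon x y e) = V.valuation ((a e : F) * mon x y e) ∧
      ∀ e', V.valuation ((a e' : F) * mon x y e') ≤ V.valuation ((a e : F) * mon x y e) := by
  have h1 := IsModel.one_lt hzV
  have h0 : V.valuation z ≠ 0 := (lt_trans zero_lt_one h1).ne'
  have hmon : ∀ e, mon x y e ≠ 0 := by
    intro e h
    have h2 := hM.val_mon hV hzV e
    rw [h, map_zero, zero_pow (by norm_num)] at h2
    exact (pow_ne_zero _ h0) h2.symm
  have hinj : ∀ e ∈ (Finset.univ : Finset (Fin 5 × Fin 6)), ∀ e' ∈ (Finset.univ : Finset _),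
      (a e : F) * mon x y e ≠ 0 → (a e' : F) * mon x y e' ≠ 0 →
      V.valuation ((a e : F) * mon x y e) = V.valuation ((a e' : F) * mon x y e') → e = e' := by
    intro e _ e' _ he he' heq
    have hae : a e ≠ 0 := by
      intro h; apply he; rw [h]; simp
    have hae' : a e' ≠ 0 := by
      intro h; apply he'; rw [h]; simp
    obtain ⟨p, q, hp, hq, hpq⟩ := exists_quot (a e) hae
    obtain ⟨p', q', hp', hq', hpq'⟩ := exists_quot (a e') hae'
    have h2 : V.valuation ((a e : F) * mon x y e) ^ 30 =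
        V.valuation ((a e' : F) * mon x y e') ^ 30 := by rw [heq]
    rw [hpq, hpq', hM.val_term hV hzV e hp hq, hM.val_term hV hzV e' hp' hq'] at h2
    have h3 := (zpow_right_strictMono₀ h1).injective h2
    apply wt_inj
    omega
  have hne : ∃ e ∈ (Finset.univ : Finset (Fin 5 × Fin 6)), (a e : F) * mon x y e ≠ 0 := by
    obtain ⟨e, he⟩ := ha
    exact ⟨e, Finset.mem_univ _, mul_ne_zero (by simpa using he) (hmon e)⟩
  obtain ⟨e, _, h2, h3, h4⟩ := valuation_sum_eq V.valuation Finset.univ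
    (fun e => (a e : F) * mon x y e) hinj hne
  refine ⟨e, ?_, h3, fun e' => h4 e' (Finset.mem_univ _)⟩
  rintro h
  apply h2
  rw [h]; simp

end Infinity

end Model

end Pool.Agent.Helper16.WSemi
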