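import Pool.Agent.Helper16.WSemi.Model

/-!
# The basis of monomials and the automorphisms of the curve
-/

namespace Pool.Agent.Helper16.WSemi

open IntermediateField Polynomial

variable {F : Type*} [Field F] [Algebra ℂ F] {x y z : F}

lemma IsModel.linearIndependent (hM : IsModel x y z) : LinearIndependent ℂ⟮z⟯ (mon x y) := by
  obtain ⟨V, hV, hzV⟩ := exists_not_mem hM.hz
  rw [Fintype.linearIndependent_iff]
  intro a ha
  by_contra hcon
  push Not at hcon
  obtain ⟨e, he, h1, h2⟩ := hM.exists_term hV hzV a hcon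
  have h3 : ∑ e, (a e : F) * mon x y e = 0 := by
    rw [← ha]
    rfl
  rw [h3, map_zero] at h1
  have h4 : (a e : F) * mon x y e = 0 := (Valuation.zero_iff _).1 h1.symm
  have h5 : mon x y e ≠ 0 := by
    intro h
    have h6 := hM.val_mon hV hzV e
    rw [h, map_zero, zero_pow (by norm_num)] at h6
    exact (pow_ne_zero _ (lt_trans zero_lt_one (IsModel.one_lt hzV)).ne') h6.symm
  rcases mul_eq_zero.1 h4 with h | h
  · exact he (Subtype.ext h)
  · exact h5 h

/-- The exponents modulo 5 and 6. -/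
def red (n m : ℕ) : Fin 5 × Fin 6 :=
  (⟨n % 5, Nat.mod_lt _ (by norm_num)⟩, ⟨m % 6, Nat.mod_lt _ (by norm_num)⟩)

/-- A polynomial in `z` as an element of `ℂ(z)`. -/
noncomputable def polE (z : F) (p : ℂ[X]) : ℂ⟮z⟯ := aeval (AdjoinSimple.gen ℂ z) p

lemma coe_polE (p : ℂ[X]) : (polE z p : F) = aeval z p := by
  rw [polE]
  have h := (aeval_algebraMap_apply F (AdjoinSimple.gen ℂ z) p)
  rw [AdjoinSimple.algebraMap_gen] at h
  exact h.symm

lemma IsModel.pow_mul_pow (hM : IsModel x y z) (n m : ℕ) :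
    x ^ n * y ^ m = (polE z (polP ^ (n / 5) * polQ ^ (m / 6))) • mon x y (red n m) := by
  rw [Algebra.smul_def]
  change _ = ((polE z (polP ^ (n / 5) * polQ ^ (m / 6)) : ℂ⟮z⟯) : F) * _
  rw [coe_polE, map_mul, map_pow, map_pow, ← hM.hx, ← hM.hy, mon, red]
  simp only
  conv_lhs => rw [← Nat.div_add_mod n 5, ← Nat.div_add_mod m 6]
  rw [pow_add, pow_add, pow_mul, pow_mul]
  ring

lemma IsModel.span_eq_top (hM : IsModel x y z) :
    Submodule.span ℂ⟮z⟯ (Set.range (mon x y)) = ⊤ := by
  have halg : ∀ t ∈ ({x, y} : Set F), IsIntegral ℂ⟮z⟯ t := by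
    intro t ht
    simp only [Set.mem_insert_iff, Set.mem_singleton_iff] at ht
    rcases ht with rfl | rfl
    · refine ⟨X ^ 5 - C (polE z polP), monic_X_pow_sub_C _ (by norm_num), ?_⟩
      rw [eval₂_sub, eval₂_X_pow, eval₂_C, hM.hx]
      exact sub_eq_zero.2 (coe_polE polP).symm
    · refine ⟨X ^ 6 - C (polE z polQ), monic_X_pow_sub_C _ (by norm_num), ?_⟩
      rw [eval₂_sub, eval₂_X_pow, eval₂_C, hM.hy]
      exact sub_eq_zero.2 (coe_polE polQ).symm
  have h1 : IntermediateField.adjoin ℂ⟮z⟯ {x, y} = ⊤ := by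
    rw [eq_top_iff]
    intro w _
    have hw : w ∈ IntermediateField.adjoin ℂ {x, y, z} := hM.hgen ▸ IntermediateField.mem_top
    have hle : IntermediateField.adjoin ℂ {x, y, z} ≤
        (IntermediateField.adjoin ℂ⟮z⟯ {x, y}).restrictScalars ℂ := by
      rw [IntermediateField.adjoin_le_iff]
      have hxm : x ∈ IntermediateField.adjoin ℂ⟮z⟯ {x, y} :=
        IntermediateField.subset_adjoin _ _ (by simp)
      have hym : y ∈ IntermediateField.adjoin ℂ⟮z⟯ {x, y} :=
        IntermediateField.subset_adjoin _ _ (by simp)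
      have hzm : z ∈ IntermediateField.adjoin ℂ⟮z⟯ {x, y} :=
        IntermediateField.algebraMap_mem _ (AdjoinSimple.gen ℂ z)
      intro t ht
      simp only [Set.mem_insert_iff, Set.mem_singleton_iff] at ht
      rw [SetLike.mem_coe, IntermediateField.mem_restrictScalars]
      rcases ht with ht | ht | ht
      · rw [ht]; exact hxm
      · rw [ht]; exact hym
      · rw [ht]; exact hzm
    exact hle hw
  have h2 : Algebra.adjoin ℂ⟮z⟯ {x, y} = ⊤ := by
    exact (IntermediateField.adjoin_eq_top_iff_of_isAlgebraic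
      fun t ht => (halg t ht).isAlgebraic).1 h1
  have h4 : (⊤ : Submodule ℂ⟮z⟯ F) ≤ Submodule.span ℂ⟮z⟯ (Set.range (mon x y)) := by
    rw [← Algebra.top_toSubmodule, ← h2, Algebra.adjoin_eq_span, Submodule.span_le]
    intro t ht
    rw [SetLike.mem_coe, Submonoid.mem_closure_pair] at ht
    obtain ⟨n, m, rfl⟩ := ht
    rw [hM.pow_mul_pow]
    exact Submodule.smul_mem _ _ (Submodule.subset_span ⟨_, rfl⟩)
  exact top_le_iff.1 h4

end Pool.Agent.Helper16.WSemi
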