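import Pool.Agent.Helper16.WSemi.ModelSigma

/-!
# The coefficients of a function regular away from infinity
-/

namespace Pool.Agent.Helper16.WSemi

open IntermediateField Polynomial

lemma rootMultiplicity_polP_le (α : ℂ) : polP.rootMultiplicity α ≤ 1 := by
  by_contra h
  push Not at h
  rw [one_lt_rootMultiplicity_iff_isRoot polP_ne_zero] at h
  obtain ⟨h1, h2⟩ := h
  rw [polP, IsRoot.def] at h1 h2
  simp only [eval_add, eval_pow, eval_X, eval_C, derivative_add, derivative_X_pow,
    derivative_C, add_zero, eval_mul] at h1 h2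
  have h3 : α = 0 := by simpa using h2
  rw [h3] at h1
  norm_num at h1

lemma rootMultiplicity_polQ_le (α : ℂ) : polQ.rootMultiplicity α ≤ 1 := by
  by_contra h
  push Not at h
  rw [one_lt_rootMultiplicity_iff_isRoot polQ_ne_zero] at h
  obtain ⟨h1, h2⟩ := h
  rw [polQ, IsRoot.def] at h1 h2
  simp only [eval_add, eval_pow, eval_X, eval_C, derivative_add, derivative_X_pow,
    derivative_C, add_zero, eval_mul] at h1 h2
  have h3 : α = 0 := by simpa using h2
  rw [h3] at h1
  norm_num at h1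

lemma rootMultiplicity_coprime (α : ℂ) :
    polP.rootMultiplicity α = 0 ∨ polQ.rootMultiplicity α = 0 := by
  by_contra h
  push Not at h
  obtain ⟨h1, h2⟩ := h
  have h3 : polP.IsRoot α := (rootMultiplicity_pos polP_ne_zero).1 (Nat.pos_of_ne_zero h1)
  have h4 : polQ.IsRoot α := (rootMultiplicity_pos polQ_ne_zero).1 (Nat.pos_of_ne_zero h2)
  rw [polP, IsRoot.def] at h3
  rw [polQ, IsRoot.def] at h4
  simp only [eval_add, eval_pow, eval_X, eval_C] at h3 h4
  have h5 : (1 : ℂ) = 0 := by linear_combination h4 - h3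
  exact one_ne_zero h5

variable {F : Type*} [Field F] [Algebra ℂ F] {x y z : F}

/-- If `a * x ^ i * y ^ j` is regular away from infinity then `a` is a polynomial in `z`. -/
lemma IsModel.exists_polynomial (hM : IsModel x y z) (a : ℂ⟮z⟯) (e : Fin 5 × Fin 6)
    (h : a • mon x y e ∈ finReg z) : ∃ r : ℂ[X], (a : F) = aeval z r := by
  by_cases ha : a = 0
  · exact ⟨0, by rw [ha]; simp⟩
  obtain ⟨p, q, hp, hq, hpq⟩ := exists_quot a ha
  have hq0 : aeval z q ≠ 0 := fun h0 => hM.hz ⟨q, hq, h0⟩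
  have key : ∀ α : ℂ, q.rootMultiplicity α ≤ p.rootMultiplicity α := by
    intro α
    have htr : Transcendental ℂ (z - algebraMap ℂ F α)⁻¹ := by
      intro h0
      apply hM.hz
      have h1 := (IsAlgebraic.inv_iff.1 h0).add (isAlgebraic_algebraMap α)
      rwa [sub_add_cancel] at h1
    obtain ⟨V, hV, hVz⟩ := exists_not_mem htr
    have hδ : V.valuation (z - algebraMap ℂ F α) < 1 := by
      rw [← V.valuation_le_one_iff, not_le, map_inv₀] at hVz
      exact (one_lt_inv_iff₀.1 hVz).2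
    have hδ0 : 0 < V.valuation (z - algebraMap ℂ F α) := by
      rw [zero_lt_iff, Valuation.ne_zero_iff]
      intro h0
      apply hM.hz
      rw [sub_eq_zero.1 h0]
      exact isAlgebraic_algebraMap α
    have hzV : z ∈ V := by
      have h1 : z - algebraMap ℂ F α ∈ V := (V.valuation_le_one_iff _).1 hδ.le
      have h2 := V.add_mem _ _ h1 (hV α)
      rwa [sub_add_cancel] at h2
    have h1 : V.valuation (a • mon x y e) ≤ 1 := (V.valuation_le_one_iff _).2 (h V hV hzV)
    have hx := congrArg V.valuation hM.hx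
    have hy := congrArg V.valuation hM.hy
    rw [map_pow, valuation_aeval_of_sub_lt_one hV hδ polP_ne_zero] at hx
    rw [map_pow, valuation_aeval_of_sub_lt_one hV hδ polQ_ne_zero] at hy
    set δ := V.valuation (z - algebraMap ℂ F α) with hδdef
    have h2 : V.valuation (a • mon x y e) = V.valuation (aeval z p / aeval z q) *
        (V.valuation x ^ (e.1 : ℕ) * V.valuation y ^ (e.2 : ℕ)) := by
      rw [← hpq, Algebra.smul_def, map_mul, mon, map_mul, map_pow, map_pow]
      rfl
    rw [h2, map_div₀, valuation_aeval_of_sub_lt_one hV hδ hp,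
      valuation_aeval_of_sub_lt_one hV hδ hq, ← hδdef, div_mul_eq_mul_div,
      div_le_one₀ (pow_pos hδ0 _)] at h1
    have h3 := pow_le_pow_left₀ zero_le h1 30
    have h4 : (V.valuation x ^ (e.1 : ℕ) * V.valuation y ^ (e.2 : ℕ)) ^ 30 =
        δ ^ (6 * (e.1 : ℕ) * polP.rootMultiplicity α + 5 * (e.2 : ℕ) * polQ.rootMultiplicity α) := by
      calc (V.valuation x ^ (e.1 : ℕ) * V.valuation y ^ (e.2 : ℕ)) ^ 30
          = (V.valuation x ^ 5) ^ (6 * (e.1 : ℕ)) * (V.valuation y ^ 6) ^ (5 * (e.2 : ℕ)) := by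
            rw [mul_pow, ← pow_mul, ← pow_mul, ← pow_mul, ← pow_mul]
            congr 2 <;> ring
        _ = _ := by
            rw [hx, hy, ← pow_mul, ← pow_mul, ← pow_add]
            congr 1
            ring
    rw [mul_pow, h4, ← pow_mul, ← pow_mul, ← pow_add,
      pow_le_pow_iff_right_of_lt_one₀ hδ0 hδ] at h3
    have h5 := rootMultiplicity_polP_le α
    have h6 := rootMultiplicity_polQ_le α
    have hi := e.1.2
    have hj := e.2.2
    rcases rootMultiplicity_coprime α with h7 | h7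
    · rw [h7] at h3
      have h8 : 5 * (e.2 : ℕ) * polQ.rootMultiplicity α ≤ 5 * (e.2 : ℕ) * 1 :=
        Nat.mul_le_mul_left _ h6
      omega
    · rw [h7] at h3
      have h8 : 6 * (e.1 : ℕ) * polP.rootMultiplicity α ≤ 6 * (e.1 : ℕ) * 1 :=
        Nat.mul_le_mul_left _ h5
      omega
  have hdvd : q ∣ p := by
    classical
    rw [IsAlgClosed.dvd_iff_roots_le_roots hq hp, Multiset.le_iff_count]
    intro α
    rw [count_roots, count_roots]
    exact key α
  obtain ⟨r, hr⟩ := hdvd
  refine ⟨r, ?_⟩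
  rw [hpq, hr, map_mul, mul_div_cancel_left₀ _ hq0]

/-- Each element of `F` is a combination of the monomials. -/
lemma IsModel.exists_repr (hM : IsModel x y z) (f : F) :
    ∃ a : Fin 5 × Fin 6 → ℂ⟮z⟯, f = ∑ e, a e • mon x y e := by
  refine ⟨fun e => hM.basis.repr f e, ?_⟩
  conv_lhs => rw [← hM.basis.sum_repr f]
  refine Finset.sum_congr rfl fun e _ => ?_
  rw [hM.basis_apply]

/-- The valuation of an element of `F` at a place at infinity. -/
lemma IsModel.exists_val (hM : IsModel x y z) {V : ValuationSubring F}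
    (hV : ∀ c : ℂ, algebraMap ℂ F c ∈ V) (hzV : z ∉ V) {f : F} (hf : f ≠ 0) :
    ∃ N : ℤ, V.valuation f ^ 30 = V.valuation z ^ N := by
  obtain ⟨a, rfl⟩ := hM.exists_repr f
  have ha : ∃ e, a e ≠ 0 := by
    by_contra hcon
    push Not at hcon
    apply hf
    exact Finset.sum_eq_zero fun e _ => by rw [hcon e, zero_smul]
  obtain ⟨e, he, h1, -⟩ := hM.exists_term hV hzV a ha
  obtain ⟨p, q, hp, hq, hpq⟩ := exists_quot (a e) he
  have h2 : ∑ e, a e • mon x y e = ∑ e, (a e : F) * mon x y e := rfl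
  rw [h2, h1, hpq]
  exact ⟨_, hM.val_term hV hzV e hp hq⟩

/-- The point at infinity is unique. -/
lemma IsModel.le_of_not_mem (hM : IsModel x y z) {V V' : ValuationSubring F}
    (hV : ∀ c : ℂ, algebraMap ℂ F c ∈ V) (hzV : z ∉ V)
    (hV' : ∀ c : ℂ, algebraMap ℂ F c ∈ V') (hzV' : z ∉ V') : V ≤ V' := by
  intro f hf
  by_cases hf0 : f = 0
  · rw [hf0]; exact V'.zero_mem
  obtain ⟨a, rfl⟩ := hM.exists_repr f
  have ha : ∃ e, a e ≠ 0 := by
    by_contra hcon
    push Not at hcon
    apply hf0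
    exact Finset.sum_eq_zero fun e _ => by rw [hcon e, zero_smul]
  have h2 : ∑ e, a e • mon x y e = ∑ e, (a e : F) * mon x y e := rfl
  obtain ⟨e, he, h3, h4⟩ := hM.exists_term hV hzV a ha
  rw [h2]
  refine V'.toSubring.sum_mem fun e' _ => ?_
  change _ ∈ V'
  rw [← V'.valuation_le_one_iff]
  rw [← V.valuation_le_one_iff, h2, h3] at hf
  have h5 := (h4 e').trans hf
  by_cases he' : a e' = 0
  · rw [he']; simp
  obtain ⟨p, q, hp, hq, hpq⟩ := exists_quot (a e') he'
  rw [hpq] at h5 ⊢
  have h6 := pow_le_one₀ (n := 30) zero_le h5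
  rw [hM.val_term hV hzV e' hp hq] at h6
  have h7 : ((30 * p.natDegree + wt e' : ℤ) - 30 * q.natDegree) ≤ 0 := by
    by_contra hcon
    push Not at hcon
    exact absurd h6 (not_le.2 (one_lt_zpow₀ (IsModel.one_lt hzV) hcon))
  have h8 : V'.valuation ((aeval z p / aeval z q) * mon x y e') ^ 30 ≤ 1 := by
    rw [hM.val_term hV' hzV' e' hp hq]
    exact zpow_le_one_of_nonpos₀ (IsModel.one_lt hzV').le h7
  exact (pow_le_one_iff_of_nonneg zero_le (by norm_num)).1 h8

lemma IsModel.eq_of_not_mem (hM : IsModel x y z) {V V' : ValuationSubring F}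
    (hV : ∀ c : ℂ, algebraMap ℂ F c ∈ V) (hzV : z ∉ V)
    (hV' : ∀ c : ℂ, algebraMap ℂ F c ∈ V') (hzV' : z ∉ V') : V = V' :=
  le_antisymm (hM.le_of_not_mem hV hzV hV' hzV') (hM.le_of_not_mem hV' hzV' hV hzV)

end Pool.Agent.Helper16.WSemi
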