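import Pool.Agent.Helper16.WSemi.ModelBasis

/-!
# Functions regular away from infinity
-/

namespace Pool.Agent.Helper16.WSemi

open IntermediateField Polynomial

variable {F : Type*} [Field F] [Algebra ℂ F] {x y z : F}

/-- The basis of monomials. -/
noncomputable def IsModel.basis (hM : IsModel x y z) : Module.Basis (Fin 5 × Fin 6) ℂ⟮z⟯ F :=
  Module.Basis.mk hM.linearIndependent hM.span_eq_top.ge

lemma IsModel.basis_apply (hM : IsModel x y z) (e : Fin 5 × Fin 6) : hM.basis e = mon x y e := by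
  rw [IsModel.basis, Module.Basis.mk_apply]

/-- The linear map multiplying each monomial by a root of unity. -/
noncomputable def IsModel.sigmaLin (hM : IsModel x y z) (ζ : ℂ) : F →ₗ[ℂ⟮z⟯] F :=
  hM.basis.constr ℂ⟮z⟯ (fun e => algebraMap ℂ F (ζ ^ wt e) * mon x y e)

lemma IsModel.sigmaLin_mon (hM : IsModel x y z) (ζ : ℂ) (e : Fin 5 × Fin 6) :
    hM.sigmaLin ζ (mon x y e) = algebraMap ℂ F (ζ ^ wt e) * mon x y e := by
  rw [IsModel.sigmaLin, ← hM.basis_apply, Module.Basis.constr_basis, hM.basis_apply]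

lemma IsModel.sigmaLin_pow (hM : IsModel x y z) {ζ : ℂ} (hζ : ζ ^ 30 = 1) (n m : ℕ) :
    hM.sigmaLin ζ (x ^ n * y ^ m) = algebraMap ℂ F (ζ ^ (42 * n + 35 * m)) * (x ^ n * y ^ m) := by
  have h1 : ζ ^ (42 * n + 35 * m) = ζ ^ wt (red n m) := by
    have h2 : 42 * n + 35 * m = 30 * (7 * (n / 5) + 7 * (m / 6)) + wt (red n m) := by
      simp only [wt, red]
      omega
    rw [h2, pow_add, pow_mul, hζ, one_pow, one_mul]
  rw [h1]
  conv_lhs => rw [hM.pow_mul_pow, map_smul, hM.sigmaLin_mon]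
  conv_rhs => rw [hM.pow_mul_pow]
  rw [mul_smul_comm]

omit [Algebra ℂ F] in
lemma IsModel.mul_mon (e e' : Fin 5 × Fin 6) :
    mon x y e * mon x y e' = x ^ ((e.1 : ℕ) + e'.1) * y ^ ((e.2 : ℕ) + e'.2) := by
  rw [mon, mon, pow_add, pow_add]
  ring

lemma IsModel.sigmaLin_mul (hM : IsModel x y z) {ζ : ℂ} (hζ : ζ ^ 30 = 1) (f g : F) :
    hM.sigmaLin ζ (f * g) = hM.sigmaLin ζ f * hM.sigmaLin ζ g := by
  have hf : f ∈ Submodule.span ℂ⟮z⟯ (Set.range (mon x y)) := by
    rw [hM.span_eq_top]; exact Submodule.mem_top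
  have hg : g ∈ Submodule.span ℂ⟮z⟯ (Set.range (mon x y)) := by
    rw [hM.span_eq_top]; exact Submodule.mem_top
  induction hf using Submodule.span_induction with
  | mem f hf =>
    obtain ⟨e, rfl⟩ := hf
    induction hg using Submodule.span_induction with
    | mem g hg =>
      obtain ⟨e', rfl⟩ := hg
      rw [IsModel.mul_mon, hM.sigmaLin_pow hζ, hM.sigmaLin_mon, hM.sigmaLin_mon]
      have h1 : 42 * ((e.1 : ℕ) + e'.1) + 35 * ((e.2 : ℕ) + e'.2) = wt e + wt e' := by
        rw [wt, wt]; ring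
      rw [h1, pow_add ζ, map_mul, ← IsModel.mul_mon]
      ring
    | zero => simp
    | add g g' _ _ h h' => rw [mul_add, map_add, map_add, h, h', mul_add]
    | smul c g _ h => rw [mul_smul_comm, map_smul, map_smul, h, mul_smul_comm]
  | zero => simp
  | add f f' _ _ h h' => rw [add_mul, map_add, map_add, h, h', add_mul]
  | smul c f _ h => rw [smul_mul_assoc, map_smul, map_smul, h, smul_mul_assoc]

/-- The automorphism of the curve multiplying each monomial by a root of unity. -/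
noncomputable def IsModel.sigma (hM : IsModel x y z) {ζ : ℂ} (hζ : ζ ^ 30 = 1) :
    F →ₐ[ℂ⟮z⟯] F :=
  AlgHom.ofLinearMap (hM.sigmaLin ζ)
    (by simpa using hM.sigmaLin_pow hζ 0 0) (hM.sigmaLin_mul hζ)

/-- The functions lying in all valuation rings containing `z`. -/
def finReg (z : F) : Subalgebra ℂ F where
  carrier := {f | ∀ V : ValuationSubring F, (∀ c : ℂ, algebraMap ℂ F c ∈ V) → z ∈ V → f ∈ V}
  mul_mem' := fun ha hb V h h' => V.mul_mem _ _ (ha V h h') (hb V h h')
  add_mem' := fun ha hb V h h' => V.add_mem _ _ (ha V h h') (hb V h h')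
  algebraMap_mem' := fun r _ h _ => h r

lemma IsModel.sigma_mem (hM : IsModel x y z) {ζ : ℂ} (hζ : ζ ^ 30 = 1) {f : F}
    (hf : f ∈ finReg z) : hM.sigmaLin ζ f ∈ finReg z := by
  intro V hV hz
  have h1 : f ∈ V.comap (hM.sigma hζ : F →+* F) := by
    apply hf
    · intro c
      rw [ValuationSubring.mem_comap]
      have h2 : (hM.sigma hζ) (algebraMap ℂ F c) = algebraMap ℂ F c :=
        (hM.sigma hζ).commutes (algebraMap ℂ ℂ⟮z⟯ c)
      change (hM.sigma hζ) (algebraMap ℂ F c) ∈ V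
      rw [h2]
      exact hV c
    · rw [ValuationSubring.mem_comap]
      have h2 : (hM.sigma hζ) z = z := (hM.sigma hζ).commutes (AdjoinSimple.gen ℂ z)
      change (hM.sigma hζ) z ∈ V
      rw [h2]
      exact hz
  exact h1

lemma IsModel.component_mem (hM : IsModel x y z) (a : Fin 5 × Fin 6 → ℂ⟮z⟯)
    (ha : ∑ e, a e • mon x y e ∈ finReg z) (e₀ : Fin 5 × Fin 6) :
    a e₀ • mon x y e₀ ∈ finReg z := by
  classical
  set ζ : ℂ := Complex.exp (2 * Real.pi * Complex.I / (30 : ℕ)) with hζdef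
  have hζp : IsPrimitiveRoot ζ 30 := Complex.isPrimitiveRoot_exp 30 (by norm_num)
  have hζ : ζ ^ 30 = 1 := hζp.pow_eq_one
  have key : ∀ T : Finset (Fin 5 × Fin 6),
      ∑ e, (∏ e' ∈ T, (ζ ^ wt e - ζ ^ wt e')) • (a e • mon x y e) ∈ finReg z := by
    intro T
    induction T using Finset.induction_on with
    | empty => simpa using ha
    | insert e₁ T he₁ ih =>
      have h1 := hM.sigma_mem hζ ih
      have h2 := (finReg z).smul_mem ih (ζ ^ wt e₁)
      have h3 := (finReg z).sub_mem h1 h2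
      convert h3 using 1
      rw [map_sum, Finset.smul_sum, ← Finset.sum_sub_distrib]
      refine Finset.sum_congr rfl fun e _ => ?_
      rw [Finset.prod_insert he₁]
      have h4 : ∀ (c : ℂ) (w : F), c • w = (algebraMap ℂ ℂ⟮z⟯ c) • w := fun c w => by
        rw [algebraMap_smul]
      rw [h4 (∏ e' ∈ T, _), map_smul, map_smul, hM.sigmaLin_mon, ← h4]
      simp only [Algebra.smul_def, map_mul, map_sub,
        ← IsScalarTower.algebraMap_apply ℂ ℂ⟮z⟯ F]
      ring
  have h1 := key (Finset.univ.erase e₀)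
  rw [Finset.sum_eq_single e₀] at h1
  · have hc : (∏ e' ∈ Finset.univ.erase e₀, (ζ ^ wt e₀ - ζ ^ wt e')) ≠ 0 := by
      rw [Finset.prod_ne_zero_iff]
      intro e' he'
      rw [Finset.mem_erase] at he'
      intro h
      apply he'.1
      have h2 : ζ ^ wt e' = ζ ^ wt e₀ := (sub_eq_zero.1 h).symm
      apply wt_inj
      have h3 : ζ ^ (wt e' % 30) = ζ ^ (wt e₀ % 30) := by
        rw [← pow_mod_orderOf ζ (wt e'), ← pow_mod_orderOf ζ (wt e₀), ← hζp.eq_orderOf] at h2
        exact h2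
      exact hζp.pow_inj (Nat.mod_lt _ (by norm_num)) (Nat.mod_lt _ (by norm_num)) h3
    have h2 := (finReg z).smul_mem h1 (∏ e' ∈ Finset.univ.erase e₀, (ζ ^ wt e₀ - ζ ^ wt e'))⁻¹
    rwa [smul_smul, inv_mul_cancel₀ hc, one_smul] at h2
  · intro e _ he
    rw [Finset.prod_eq_zero (i := e) (Finset.mem_erase.2 ⟨he, Finset.mem_univ _⟩) (sub_self _),
      zero_smul]
  · intro h
    exact absurd (Finset.mem_univ _) h

end Pool.Agent.Helper16.WSemi
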