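import Pool.Agent.Helper16.WSemi.Disc

/-!
# Pointed curves whose Weierstrass semigroup is generated by 30, 35 and 42: normal form
-/

namespace Pool.Agent.Helper16.WSemi

open IntermediateField Polynomial

lemma mem_semi_iff (n : ℕ) :
    n ∈ semi ↔ ∃ i j k, i < 5 ∧ j < 6 ∧ n = 42 * i + 35 * j + 30 * k := by
  constructor
  · intro h
    induction h using AddSubmonoid.closure_induction with
    | mem x hx =>
      simp only [Set.mem_insert_iff, Set.mem_singleton_iff] at hx
      rcases hx with rfl | rfl | rfl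
      · exact ⟨0, 0, 1, by omega, by omega, by omega⟩
      · exact ⟨0, 1, 0, by omega, by omega, by omega⟩
      · exact ⟨1, 0, 0, by omega, by omega, by omega⟩
    | zero => exact ⟨0, 0, 0, by omega, by omega, by omega⟩
    | add a b _ _ ha hb =>
      obtain ⟨i, j, k, hi, hj, rfl⟩ := ha
      obtain ⟨i', j', k', hi', hj', rfl⟩ := hb
      by_cases h1 : i + i' < 5
      · by_cases h2 : j + j' < 6
        · exact ⟨i + i', j + j', k + k', by omega, by omega, by omega⟩
        · exact ⟨i + i', j + j' - 6, k + k' + 7, by omega, by omega, by omega⟩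
      · by_cases h2 : j + j' < 6
        · exact ⟨i + i' - 5, j + j', k + k' + 7, by omega, by omega, by omega⟩
        · exact ⟨i + i' - 5, j + j' - 6, k + k' + 14, by omega, by omega, by omega⟩
  · rintro ⟨i, j, k, _, _, rfl⟩
    have h30 : 30 ∈ semi := AddSubmonoid.subset_closure (by simp)
    have h35 : 35 ∈ semi := AddSubmonoid.subset_closure (by simp)
    have h42 : 42 ∈ semi := AddSubmonoid.subset_closure (by simp)
    have h1 := semi.nsmul_mem h42 i
    have h2 := semi.nsmul_mem h35 j
    have h3 := semi.nsmul_mem h30 k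
    have h4 := semi.add_mem (semi.add_mem h1 h2) h3
    simp only [smul_eq_mul] at h4
    convert h4 using 1
    ring

lemma card_expo : expo.card = 67 := by decide +kernel

section Reg

variable {K F : Type*} [Field K] [Field F] [Algebra K F]

/-- The ring of functions regular away from a point. -/
def regAway (K : Type*) {F : Type*} [Field K] [Field F] [Algebra K F]
    (O : ValuationSubring F) : Subalgebra K F where
  carrier := {f | RegularAway K O f}
  mul_mem' := fun ha hb O' h h' => O'.mul_mem _ _ (ha O' h h') (hb O' h h')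
  add_mem' := fun ha hb O' h h' => O'.add_mem _ _ (ha O' h h') (hb O' h h')
  algebraMap_mem' := fun r _ h _ => h.1 r

lemma mem_regAway {O : ValuationSubring F} {f : F} : f ∈ regAway K O ↔ RegularAway K O f :=
  Iff.rfl

lemma exists_const_of_regAway [IsAlgClosed K] {O : ValuationSubring F} {f : F}
    (hf : f ∈ regAway K O) (hfO : f ∈ O) : ∃ c : K, algebraMap K F c = f := by
  apply exists_algebraMap_eq
  apply IsIntegral.isAlgebraic
  apply isIntegral_of_forall_mem
  intro V hV
  by_cases h1 : V = ⊤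
  · rw [h1]; exact ValuationSubring.mem_top f
  by_cases h2 : V = O
  · rw [h2]; exact hfO
  exact hf V ⟨hV, h1⟩ h2

variable [IsAlgClosed K] {O : ValuationSubring F} {Γ : O.ValueGroup}

lemma exists_pow_of_regAway (hO : IsPlace K O)
    (hΓ1 : 1 < Γ) (hΓ2 : ∀ f : F, f ≠ 0 → ∃ n : ℤ, O.valuation f = Γ ^ n)
    {f : F} (hf : f ∈ regAway K O) (hf0 : f ≠ 0) : ∃ n : ℕ, O.valuation f = Γ ^ n := by
  obtain ⟨n, hn⟩ := hΓ2 f hf0
  rcases le_or_gt 0 n with h | h
  · obtain ⟨m, rfl⟩ := Int.eq_ofNat_of_zero_le h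
    exact ⟨m, by rw [hn]; simp⟩
  · exfalso
    have h1 : O.valuation f < 1 := by
      rw [hn]
      exact zpow_lt_one_of_neg₀ hΓ1 h
    obtain ⟨c, hc⟩ := exists_const_of_regAway hf ((O.valuation_le_one_iff _).1 h1.le)
    have hc0 : c ≠ 0 := by
      rintro rfl
      rw [map_zero] at hc
      exact hf0 hc.symm
    have h2 := valuation_const hO.1 hc0
    rw [hc] at h2
    exact h1.ne h2

/-- The functions regular away from `O` are spanned by the monomials in `x`, `y`, `z`. -/
lemma mem_span_monomials (hF : IsFunctionField K F) (hO : IsPlace K O)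
    (hΓ1 : 1 < Γ) (hΓ2 : ∀ f : F, f ≠ 0 → ∃ n : ℤ, O.valuation f = Γ ^ n)
    (hS : ∀ f ∈ regAway K O, ∀ n : ℕ, O.valuation f = Γ ^ n → n ∈ semi)
    {x y z : F} (hx : x ∈ regAway K O) (hy : y ∈ regAway K O) (hz : z ∈ regAway K O)
    (vx : O.valuation x = Γ ^ 42) (vy : O.valuation y = Γ ^ 35) (vz : O.valuation z = Γ ^ 30)
    (m : ℕ) {f : F} (hf : f ∈ regAway K O) (hfm : O.valuation f = Γ ^ m) :
    f ∈ Submodule.span K {w : F | ∃ i j k : ℕ, i < 5 ∧ j < 6 ∧ 42 * i + 35 * j + 30 * k ≤ m ∧
      w = x ^ i * y ^ j * z ^ k} := by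
  induction m using Nat.strong_induction_on generalizing f with
  | _ m ih =>
    have hΓ0 : (0 : O.ValueGroup) < Γ := lt_trans zero_lt_one hΓ1
    obtain ⟨i, j, k, hi, hj, hm⟩ := (mem_semi_iff m).1 (hS f hf m hfm)
    set g : F := x ^ i * y ^ j * z ^ k with hg
    have hgv : O.valuation g = Γ ^ m := by
      rw [hg, map_mul, map_mul, map_pow, map_pow, map_pow, vx, vy, vz, hm]
      rw [← pow_mul, ← pow_mul, ← pow_mul, ← pow_add, ← pow_add]
    have hgA : g ∈ regAway K O :=
      (regAway K O).mul_mem ((regAway K O).mul_mem (pow_mem hx _) (pow_mem hy _)) (pow_mem hz _)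
    have hg0 : g ≠ 0 := by
      rw [← Valuation.ne_zero_iff O.valuation, hgv]
      exact (pow_pos hΓ0 _).ne'
    have h1 : O.valuation (f / g) = 1 := by
      rw [map_div₀, hfm, hgv, div_self (pow_pos hΓ0 _).ne']
    obtain ⟨c, hc⟩ := exists_const hF hO ((O.valuation_le_one_iff _).1 h1.le)
    have h2 : f - algebraMap K F c * g = (f / g - algebraMap K F c) * g := by
      rw [sub_mul, div_mul_cancel₀ _ hg0]
    have h3 : O.valuation (f - algebraMap K F c * g) < Γ ^ m := by
      rw [h2, map_mul, hgv]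
      calc _ < 1 * Γ ^ m := by
            gcongr
            exact pow_pos hΓ0 _
        _ = Γ ^ m := one_mul _
    have h4 : f - algebraMap K F c * g ∈ regAway K O :=
      (regAway K O).sub_mem hf ((regAway K O).mul_mem ((regAway K O).algebraMap_mem c) hgA)
    have h5 : algebraMap K F c * g ∈ Submodule.span K {w : F | ∃ i j k : ℕ, i < 5 ∧ j < 6 ∧
        42 * i + 35 * j + 30 * k ≤ m ∧ w = x ^ i * y ^ j * z ^ k} := by
      rw [← Algebra.smul_def]
      exact Submodule.smul_mem _ _ (Submodule.subset_span ⟨i, j, k, hi, hj, hm.ge, rfl⟩)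
    by_cases h6 : f - algebraMap K F c * g = 0
    · rw [sub_eq_zero.1 h6]
      exact h5
    · obtain ⟨l, hl⟩ := exists_pow_of_regAway hO hΓ1 hΓ2 h4 h6
      have hlm : l < m := by
        rw [hl] at h3
        exact (pow_lt_pow_iff_right₀ hΓ1).1 h3
      have h7 := ih l hlm h4 hl
      have h8 : f = (f - algebraMap K F c * g) + algebraMap K F c * g := by ring
      rw [h8]
      refine Submodule.add_mem _ (Submodule.span_mono ?_ h7) h5
      rintro w ⟨i, j, k, hi, hj, hw, rfl⟩
      exact ⟨i, j, k, hi, hj, by omega, rfl⟩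

end Reg

end Pool.Agent.Helper16.WSemi
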