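import Pool.Agent.Helper16.WSemi.Normal

/-!
# Normal form
-/

namespace Pool.Agent.Helper16.WSemi

open IntermediateField Polynomial

section Normal

variable {K F : Type*} [Field K] [Field F] [Algebra K F]

lemma exists_combo {l : ℕ} (hl : l < 210) {x y z r : F}
    (h : r ∈ Submodule.span K {w : F | ∃ i j k : ℕ, i < 5 ∧ j < 6 ∧
      42 * i + 35 * j + 30 * k ≤ l ∧ w = x ^ i * y ^ j * z ^ k}) :
    ∃ a : expo → K, r = combo a x y z := by
  have h1 : r ∈ Submodule.span K
      ((fun e : ℕ × ℕ × ℕ => x ^ e.1 * y ^ e.2.1 * z ^ e.2.2) '' (expo : Set (ℕ × ℕ × ℕ))) := by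
    refine Submodule.span_mono ?_ h
    rintro w ⟨i, j, k, hi, hj, hw, rfl⟩
    refine ⟨(i, j, k), ?_, rfl⟩
    simp only [expo, Finset.coe_filter, Finset.mem_product, Finset.mem_range, Set.mem_ofPred_eq]
    omega
  rw [Submodule.mem_span_image_finset_iff_exists_fun] at h1
  obtain ⟨c, hc⟩ := h1
  refine ⟨c, ?_⟩
  rw [← hc, combo]
  refine Finset.sum_congr rfl fun e _ => ?_
  rw [Algebra.smul_def]

variable [IsAlgClosed K] {O : ValuationSubring F}

lemma exists_rescale (hF : IsFunctionField K F) (hO : IsPlace K O) {w u : F} (hu : u ≠ 0)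
    {n : ℕ} (hn : 0 < n) (h : O.valuation (w ^ n) = O.valuation u) :
    ∃ c : K, c ≠ 0 ∧ O.valuation ((algebraMap K F c * w) ^ n - u) < O.valuation u := by
  have hu0 : O.valuation u ≠ 0 := (Valuation.ne_zero_iff _).2 hu
  have h1 : O.valuation (w ^ n / u) = 1 := by
    rw [map_div₀, h, div_self hu0]
  obtain ⟨c, hc⟩ := exists_const hF hO ((O.valuation_le_one_iff _).1 h1.le)
  have hc0 : c ≠ 0 := by
    rintro rfl
    rw [map_zero, sub_zero] at hc
    exact hc.ne h1
  obtain ⟨d, hd⟩ := IsAlgClosed.exists_pow_nat_eq c⁻¹ hn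
  have hd0 : d ≠ 0 := by
    rintro rfl
    rw [zero_pow hn.ne'] at hd
    exact inv_ne_zero hc0 hd.symm
  refine ⟨d, hd0, ?_⟩
  have hc' : algebraMap K F c ≠ 0 := by simpa using hc0
  have h2 : (algebraMap K F d * w) ^ n - u
      = algebraMap K F c⁻¹ * ((w ^ n / u - algebraMap K F c) * u) := by
    rw [mul_pow, ← map_pow, hd, map_inv₀]
    field_simp
  rw [h2, map_mul, map_mul, valuation_const hO.1 (inv_ne_zero hc0), one_mul]
  calc O.valuation (w ^ n / u - algebraMap K F c) * O.valuation u < 1 * O.valuation u := by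
        gcongr
        exact zero_lt_iff.2 hu0
    _ = O.valuation u := one_mul _

/-- `F` is generated by `x`, `y`, `z`. -/
lemma adjoin_eq_top (hF : IsFunctionField K F) (hO : IsPlace K O) {z : F}
    (hz : z ∈ regAway K O) (hzO : z ∉ O) (L : IntermediateField K F)
    (hL : ∀ f ∈ regAway K O, f ∈ L) : L = ⊤ := by
  have hz0 : z ≠ 0 := by
    rintro rfl
    exact hzO O.zero_mem
  have hz1 : O.valuation z ≠ 1 := by
    intro h
    exact hzO ((O.valuation_le_one_iff _).1 h.le)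
  have h2 : Transcendental K z := transcendental_of_valuation hO.1 hz0 hz1
  have h3 := isAlgebraic_of_transcendental hF h2
  rw [eq_top_iff]
  intro f _
  have h4 : IsAlgebraic (Algebra.adjoin K {z}) f := by
    rw [← isAlgebraic_adjoin_iff]
    exact Algebra.IsAlgebraic.isAlgebraic f
  obtain ⟨y, hy0, hy⟩ := h4.exists_integral_multiple
  have hyA : ∀ r : Algebra.adjoin K {z}, (r : F) ∈ regAway K O := by
    intro r
    have hle : Algebra.adjoin K {z} ≤ regAway K O := by
      rw [Algebra.adjoin_le_iff, Set.singleton_subset_iff]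
      exact hz
    exact hle r.2
  have h5 : y • f ∈ regAway K O := by
    intro O' hO' hne
    refine mem_of_isIntegral O' ?_ hy
    intro r
    exact hyA r O' hO' hne
  have h6 : (y : F) ≠ 0 := fun h => hy0 (Subtype.ext h)
  have h7 : f = (y : F)⁻¹ * (y • f) := by
    rw [Subalgebra.smul_def, smul_eq_mul, inv_mul_cancel_left₀ h6]
  rw [h7]
  exact L.mul_mem (L.inv_mem (hL _ (hyA y))) (hL _ h5)

/-- Normal form of a pointed curve with semigroup `semi`. -/
theorem normal_form (hF : IsFunctionField K F) (hO : IsPlace K O)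
    (hW : ∀ n, (∃ f, RegularAway K O f ∧ PoleOrder O f n) ↔ n ∈ semi) :
    ∃ (x y z : F) (a b : expo → K),
      (RegularAway K O x ∧ PoleOrder O x 42) ∧ (RegularAway K O y ∧ PoleOrder O y 35) ∧
      (RegularAway K O z ∧ PoleOrder O z 30) ∧
      x ^ 5 = z ^ 7 + combo a x y z ∧ y ^ 6 = z ^ 7 + combo b x y z ∧
      IntermediateField.adjoin K {x, y, z} = ⊤ := by
  obtain ⟨x0, hx0, px0⟩ := (hW 42).2 ((mem_semi_iff _).2 ⟨1, 0, 0, by omega, by omega, by omega⟩)
  obtain ⟨y0, hy0, py0⟩ := (hW 35).2 ((mem_semi_iff _).2 ⟨0, 1, 0, by omega, by omega, by omega⟩)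
  obtain ⟨z, hz, pz⟩ := (hW 30).2 ((mem_semi_iff _).2 ⟨0, 0, 1, by omega, by omega, by omega⟩)
  obtain ⟨Γ, hΓ1, hΓ2, hΓ3⟩ := exists_gamma hF hO ⟨z, 30, pz⟩
  have hΓ0 : (0 : O.ValueGroup) < Γ := lt_trans zero_lt_one hΓ1
  have vx0 := (hΓ3 _ _).1 px0
  have vy0 := (hΓ3 _ _).1 py0
  have vz := (hΓ3 _ _).1 pz
  have hS : ∀ f ∈ regAway K O, ∀ n : ℕ, O.valuation f = Γ ^ n → n ∈ semi := fun f hf n hn =>
    (hW n).1 ⟨f, hf, (hΓ3 f n).2 hn⟩
  have hz7 : O.valuation (z ^ 7) = Γ ^ 210 := by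
    rw [map_pow, vz, ← pow_mul]
  have hz70 : z ^ 7 ≠ 0 := by
    rw [← Valuation.ne_zero_iff O.valuation, hz7]
    exact (pow_pos hΓ0 _).ne'
  have hx5 : O.valuation (x0 ^ 5) = O.valuation (z ^ 7) := by
    rw [map_pow, vx0, ← pow_mul, hz7]
  have hy6 : O.valuation (y0 ^ 6) = O.valuation (z ^ 7) := by
    rw [map_pow, vy0, ← pow_mul, hz7]
  obtain ⟨c, hc0, hc⟩ := exists_rescale hF hO hz70 (by norm_num) hx5
  obtain ⟨d, hd0, hd⟩ := exists_rescale hF hO hz70 (by norm_num) hy6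
  set x := algebraMap K F c * x0 with hxdef
  set y := algebraMap K F d * y0 with hydef
  have hx : x ∈ regAway K O := (regAway K O).mul_mem ((regAway K O).algebraMap_mem c) hx0
  have hy : y ∈ regAway K O := (regAway K O).mul_mem ((regAway K O).algebraMap_mem d) hy0
  have hz' : z ∈ regAway K O := hz
  have vx : O.valuation x = Γ ^ 42 := by
    rw [hxdef, map_mul, valuation_const hO.1 hc0, one_mul, vx0]
  have vy : O.valuation y = Γ ^ 35 := by
    rw [hydef, map_mul, valuation_const hO.1 hd0, one_mul, vy0]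
  have key : ∀ r ∈ regAway K O, O.valuation r < Γ ^ 210 → ∃ a : expo → K,
      r = combo a x y z := by
    intro r hr hr1
    by_cases hr0 : r = 0
    · refine ⟨0, ?_⟩
      rw [hr0, combo]
      simp
    obtain ⟨l, hl⟩ := exists_pow_of_regAway hO hΓ1 hΓ2 hr hr0
    have hl1 : l < 210 := by
      rw [hl] at hr1
      exact (pow_lt_pow_iff_right₀ hΓ1).1 hr1
    exact exists_combo hl1 (mem_span_monomials hF hO hΓ1 hΓ2 hS hx hy hz' vx vy vz l hr hl)
  obtain ⟨a, ha⟩ := key (x ^ 5 - z ^ 7)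
    ((regAway K O).sub_mem (pow_mem hx _) (pow_mem hz' _)) (by rw [← hz7]; exact hc)
  obtain ⟨b, hb⟩ := key (y ^ 6 - z ^ 7)
    ((regAway K O).sub_mem (pow_mem hy _) (pow_mem hz' _)) (by rw [← hz7]; exact hd)
  refine ⟨x, y, z, a, b, ⟨hx, (hΓ3 _ _).2 vx⟩, ⟨hy, (hΓ3 _ _).2 vy⟩, ⟨hz, pz⟩, ?_, ?_, ?_⟩
  · rw [← ha]; ring
  · rw [← hb]; ring
  · refine adjoin_eq_top hF hO hz' ?_ _ ?_
    · intro h
      have h1 := (O.valuation_le_one_iff _).2 h
      rw [vz] at h1
      exact absurd (one_lt_pow₀ hΓ1 (by norm_num : (30 : ℕ) ≠ 0)) (not_lt.2 h1)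
    · intro f hf
      by_cases hf0 : f = 0
      · rw [hf0]; exact zero_mem _
      obtain ⟨l, hl⟩ := exists_pow_of_regAway hO hΓ1 hΓ2 hf hf0
      have h1 := mem_span_monomials hF hO hΓ1 hΓ2 hS hx hy hz' vx vy vz l hf hl
      have h2 : Submodule.span K {w : F | ∃ i j k : ℕ, i < 5 ∧ j < 6 ∧
          42 * i + 35 * j + 30 * k ≤ l ∧ w = x ^ i * y ^ j * z ^ k} ≤
          Subalgebra.toSubmodule (IntermediateField.adjoin K {x, y, z}).toSubalgebra := by
        rw [Submodule.span_le]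
        rintro w ⟨i, j, k, _, _, _, rfl⟩
        have hx' : x ∈ IntermediateField.adjoin K {x, y, z} :=
          IntermediateField.subset_adjoin _ _ (by simp)
        have hy' : y ∈ IntermediateField.adjoin K {x, y, z} :=
          IntermediateField.subset_adjoin _ _ (by simp)
        have hz' : z ∈ IntermediateField.adjoin K {x, y, z} :=
          IntermediateField.subset_adjoin _ _ (by simp)
        change _ ∈ IntermediateField.adjoin K {x, y, z}
        exact mul_mem (mul_mem (pow_mem hx' _) (pow_mem hy' _)) (pow_mem hz' _)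
      exact h2 h1

end Normal

end Pool.Agent.Helper16.WSemi
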