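import Pool.Agent.Helper16.WSemi.Existence

/-!
# The equations determine the pointed curve
-/

namespace Pool.Agent.Helper16.WSemi

open IntermediateField

section Reduction

variable {K : Type*} [Field K]

/-- The polynomial version of `combo`. -/
noncomputable def comboP (a : expo → K) : MvPolynomial (Fin 3) K :=
  ∑ e : expo, MvPolynomial.C (a e) *
    (MvPolynomial.X 0 ^ e.1.1 * MvPolynomial.X 1 ^ e.1.2.1 * MvPolynomial.X 2 ^ e.1.2.2)

/-- The ideal of the equations. -/
noncomputable def relIdeal (a b : expo → K) : Ideal (MvPolynomial (Fin 3) K) :=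
  Ideal.span {MvPolynomial.X 0 ^ 5 - (MvPolynomial.X 2 ^ 7 + comboP a),
    MvPolynomial.X 1 ^ 6 - (MvPolynomial.X 2 ^ 7 + comboP b)}

/-- The monomials in normal form. -/
noncomputable def nmon (K : Type*) [Field K] (e : Fin 5 × Fin 6 × ℕ) : MvPolynomial (Fin 3) K :=
  MvPolynomial.X 0 ^ (e.1 : ℕ) * MvPolynomial.X 1 ^ (e.2.1 : ℕ) * MvPolynomial.X 2 ^ e.2.2

lemma monomial_mem (a b : expo → K) (w : ℕ) : ∀ i j k : ℕ, 42 * i + 35 * j = w →
    (MvPolynomial.X 0 ^ i * MvPolynomial.X 1 ^ j * MvPolynomial.X 2 ^ k :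
      MvPolynomial (Fin 3) K) ∈
    Submodule.span K (Set.range (nmon K)) ⊔ (relIdeal a b).restrictScalars K := by
  induction w using Nat.strong_induction_on with
  | _ w ih =>
    intro i j k hw
    set T := Submodule.span K (Set.range (nmon K)) ⊔ (relIdeal a b).restrictScalars K with hT
    have hJ : ∀ p ∈ relIdeal a b, p ∈ T := fun p hp => Submodule.mem_sup_right hp
    have hterm : ∀ (c : expo → K) (i' j' : ℕ), 42 * i' + 35 * j' + 210 ≤ w →
        (MvPolynomial.X 0 ^ i' * MvPolynomial.X 1 ^ j' * MvPolynomial.X 2 ^ k) *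
          (MvPolynomial.X 2 ^ 7 + comboP c) ∈ T := by
      intro c i' j' h
      rw [mul_add]
      refine T.add_mem ?_ ?_
      · have h1 := ih (42 * i' + 35 * j') (by omega) i' j' (k + 7) rfl
        rw [pow_add, ← mul_assoc] at h1
        exact h1
      · rw [comboP, Finset.mul_sum]
        refine T.sum_mem fun e _ => ?_
        have he := e.2
        simp only [expo, Finset.mem_filter, Finset.mem_product, Finset.mem_range] at he
        have h1 := ih (42 * (i' + e.1.1) + 35 * (j' + e.1.2.1)) (by omega) (i' + e.1.1)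
          (j' + e.1.2.1) (k + e.1.2.2) rfl
        have h2 := T.smul_mem (c e) h1
        convert h2 using 1
        rw [MvPolynomial.smul_eq_C_mul, pow_add, pow_add, pow_add]
        ring
    by_cases h5 : 5 ≤ i
    · have h1 : (MvPolynomial.X 0 ^ i * MvPolynomial.X 1 ^ j * MvPolynomial.X 2 ^ k :
          MvPolynomial (Fin 3) K) =
          (MvPolynomial.X 0 ^ (i - 5) * MvPolynomial.X 1 ^ j * MvPolynomial.X 2 ^ k) *
            (MvPolynomial.X 0 ^ 5 - (MvPolynomial.X 2 ^ 7 + comboP a)) +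
          (MvPolynomial.X 0 ^ (i - 5) * MvPolynomial.X 1 ^ j * MvPolynomial.X 2 ^ k) *
            (MvPolynomial.X 2 ^ 7 + comboP a) := by
        obtain ⟨i', rfl⟩ := Nat.exists_eq_add_of_le h5
        rw [Nat.add_sub_cancel_left, pow_add]
        ring
      rw [h1]
      refine T.add_mem (hJ _ ?_) (hterm a (i - 5) j (by omega))
      exact Ideal.mul_mem_left _ _ (Ideal.subset_span (by simp))
    by_cases h6 : 6 ≤ j
    · have h1 : (MvPolynomial.X 0 ^ i * MvPolynomial.X 1 ^ j * MvPolynomial.X 2 ^ k :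
          MvPolynomial (Fin 3) K) =
          (MvPolynomial.X 0 ^ i * MvPolynomial.X 1 ^ (j - 6) * MvPolynomial.X 2 ^ k) *
            (MvPolynomial.X 1 ^ 6 - (MvPolynomial.X 2 ^ 7 + comboP b)) +
          (MvPolynomial.X 0 ^ i * MvPolynomial.X 1 ^ (j - 6) * MvPolynomial.X 2 ^ k) *
            (MvPolynomial.X 2 ^ 7 + comboP b) := by
        obtain ⟨j', rfl⟩ := Nat.exists_eq_add_of_le h6
        rw [Nat.add_sub_cancel_left, pow_add]
        ring
      rw [h1]
      refine T.add_mem (hJ _ ?_) (hterm b i (j - 6) (by omega))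
      exact Ideal.mul_mem_left _ _ (Ideal.subset_span (by simp))
    · refine Submodule.mem_sup_left (Submodule.subset_span ?_)
      exact ⟨(⟨i, by omega⟩, ⟨j, by omega⟩, k), rfl⟩

lemma mem_sup (a b : expo → K) (p : MvPolynomial (Fin 3) K) :
    p ∈ Submodule.span K (Set.range (nmon K)) ⊔ (relIdeal a b).restrictScalars K := by
  rw [p.as_sum]
  refine Submodule.sum_mem _ fun m _ => ?_
  rw [MvPolynomial.monomial_eq, ← MvPolynomial.smul_eq_C_mul,
    Finsupp.prod_fintype _ _ (fun i => pow_zero _), Fin.prod_univ_three]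
  exact Submodule.smul_mem _ _ (monomial_mem a b _ _ _ _ rfl)

end Reduction

section Kernel

variable {K F : Type*} [Field K] [Field F] [Algebra K F]

/-- The data of the normal form. -/
structure IsNormal (O : ValuationSubring F) (a b : expo → K) (x y z : F) : Prop where
  hx : RegularAway K O x ∧ PoleOrder O x 42
  hy : RegularAway K O y ∧ PoleOrder O y 35
  hz : RegularAway K O z ∧ PoleOrder O z 30
  hx5 : x ^ 5 = z ^ 7 + combo a x y z
  hy6 : y ^ 6 = z ^ 7 + combo b x y z
  hgen : IntermediateField.adjoin K {x, y, z} = ⊤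

/-- Evaluation of polynomials. -/
noncomputable def ev (K : Type*) [Field K] [Algebra K F] (x y z : F) :
    MvPolynomial (Fin 3) K →ₐ[K] F :=
  MvPolynomial.aeval ![x, y, z]

lemma ev_nmon (x y z : F) (e : Fin 5 × Fin 6 × ℕ) :
    ev K x y z (nmon K e) = x ^ (e.1 : ℕ) * y ^ (e.2.1 : ℕ) * z ^ e.2.2 := by
  simp [ev, nmon]

lemma ev_comboP (a : expo → K) (x y z : F) : ev K x y z (comboP a) = combo a x y z := by
  simp [ev, comboP, combo]

lemma linearIndependent_nmon [IsAlgClosed K] {O : ValuationSubring F} (hO : IsPlace K O)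
    {Γ : O.ValueGroup} (hΓ1 : 1 < Γ) {x y z : F}
    (vx : O.valuation x = Γ ^ 42) (vy : O.valuation y = Γ ^ 35) (vz : O.valuation z = Γ ^ 30) :
    LinearIndependent K (fun e : Fin 5 × Fin 6 × ℕ => ev K x y z (nmon K e)) := by
  have hΓ0 : (0 : O.ValueGroup) < Γ := lt_trans zero_lt_one hΓ1
  have hv : ∀ e : Fin 5 × Fin 6 × ℕ, O.valuation (ev K x y z (nmon K e)) =
      Γ ^ (42 * (e.1 : ℕ) + 35 * (e.2.1 : ℕ) + 30 * e.2.2) := by
    intro e
    rw [ev_nmon, map_mul, map_mul, map_pow, map_pow, map_pow, vx, vy, vz, ← pow_mul, ← pow_mul,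
      ← pow_mul, ← pow_add, ← pow_add]
  rw [linearIndependent_iff']
  intro s g hsum e₀ he₀
  by_contra hg
  have hvt : ∀ e, g e ≠ 0 → O.valuation (g e • ev K x y z (nmon K e)) =
      Γ ^ (42 * (e.1 : ℕ) + 35 * (e.2.1 : ℕ) + 30 * e.2.2) := by
    intro e he
    rw [Algebra.smul_def, map_mul, valuation_const hO.1 he, one_mul, hv]
  obtain ⟨e, _, h2, h3, -⟩ := valuation_sum_eq O.valuation s
    (fun e => g e • ev K x y z (nmon K e)) (by
      intro e _ e' _ he he' heq
      have hge : g e ≠ 0 := by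
        intro h; apply he; rw [h, zero_smul]
      have hge' : g e' ≠ 0 := by
        intro h; apply he'; rw [h, zero_smul]
      rw [hvt e hge, hvt e' hge'] at heq
      have h4 := (pow_right_strictMono₀ hΓ1).injective heq
      have h5 : (e.1 : ℕ) = e'.1 := by omega
      have h6 : (e.2.1 : ℕ) = e'.2.1 := by omega
      have h7 : e.2.2 = e'.2.2 := by omega
      exact Prod.ext (Fin.ext h5) (Prod.ext (Fin.ext h6) h7))
    ⟨e₀, he₀, by
      intro h
      have h4 := hvt e₀ hg
      rw [h, map_zero] at h4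
      exact (pow_pos hΓ0 _).ne h4⟩
  rw [hsum, map_zero] at h3
  exact h2 ((Valuation.zero_iff _).1 h3.symm)

lemma IsNormal.ker_le [IsAlgClosed K] (hF : IsFunctionField K F) {O : ValuationSubring F}
    (hO : IsPlace K O) {a b : expo → K} {x y z : F} (h : IsNormal O a b x y z)
    {p : MvPolynomial (Fin 3) K} (hp : ev K x y z p = 0) : p ∈ relIdeal a b := by
  obtain ⟨Γ, hΓ1, hΓ2, hΓ3⟩ := exists_gamma hF hO ⟨z, 30, h.hz.2⟩
  have hli := linearIndependent_nmon hO hΓ1 ((hΓ3 _ _).1 h.hx.2) ((hΓ3 _ _).1 h.hy.2)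
    ((hΓ3 _ _).1 h.hz.2)
  obtain ⟨q, hq, r, hr, rfl⟩ := Submodule.mem_sup.1 (mem_sup a b p)
  have hr0 : ev K x y z r = 0 := by
    have hle : relIdeal a b ≤ RingHom.ker (ev K x y z) := by
      rw [relIdeal, Ideal.span_le]
      intro w hw
      simp only [Set.mem_insert_iff, Set.mem_singleton_iff] at hw
      rw [SetLike.mem_coe, RingHom.mem_ker]
      rcases hw with rfl | rfl
      · rw [map_sub, map_add, ev_comboP]
        simp [ev, h.hx5]
      · rw [map_sub, map_add, ev_comboP]
        simp [ev, h.hy6]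
    exact hle hr
  rw [map_add, hr0, add_zero] at hp
  rw [← Set.image_univ, Finsupp.mem_span_image_iff_linearCombination] at hq
  obtain ⟨l, -, rfl⟩ := hq
  have hl : l = 0 := by
    rw [linearIndependent_iff] at hli
    apply hli
    rw [← hp]
    simp only [Finsupp.linearCombination_apply, map_finsuppSum, map_smul]
  rw [hl, map_zero, zero_add]
  exact hr

end Kernel

end Pool.Agent.Helper16.WSemi
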