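import Pool.Agent.Helper16.WSemi.Unique

/-!
# Isomorphism of pointed curves with the same equations
-/

namespace Pool.Agent.Helper16.WSemi

open IntermediateField

section Iso

variable {K F F' : Type*} [Field K] [Field F] [Algebra K F] [Field F'] [Algebra K F']

lemma IsNormal.ker_eq [IsAlgClosed K] (hF : IsFunctionField K F) {O : ValuationSubring F}
    (hO : IsPlace K O) {a b : expo → K} {x y z : F} (h : IsNormal O a b x y z) :
    RingHom.ker (ev K x y z) = relIdeal a b := by
  apply le_antisymm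
  · intro p hp
    exact h.ker_le hF hO hp
  · rw [relIdeal, Ideal.span_le]
    intro w hw
    simp only [Set.mem_insert_iff, Set.mem_singleton_iff] at hw
    rw [SetLike.mem_coe, RingHom.mem_ker]
    rcases hw with rfl | rfl
    · rw [map_sub, map_add, ev_comboP]
      simp [ev, h.hx5]
    · rw [map_sub, map_add, ev_comboP]
      simp [ev, h.hy6]

lemma range_ev (x y z : F) : (ev K x y z).range = Algebra.adjoin K {x, y, z} := by
  rw [ev, ← Algebra.adjoin_range_eq_range_aeval]
  congr 1
  ext w
  simp only [Matrix.range_cons, Matrix.range_empty, Set.union_empty, Set.singleton_union,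
    Set.mem_insert_iff, Set.mem_singleton_iff]

lemma isFractionRing_range {x y z : F} (hgen : IntermediateField.adjoin K {x, y, z} = ⊤) :
    IsFractionRing (ev K x y z).range F := by
  refine IsFractionRing.of_field _ _ fun w => ?_
  have hw : w ∈ IntermediateField.adjoin K {x, y, z} := hgen ▸ IntermediateField.mem_top
  rw [IntermediateField.mem_adjoin_iff_div] at hw
  obtain ⟨r, hr, s, hs, rfl⟩ := hw
  rw [← range_ev] at hr hs
  exact ⟨⟨r, hr⟩, ⟨s, hs⟩, rfl⟩

/-- Two fields with generators satisfying the same relations are isomorphic. -/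
lemma exists_algEquiv {x y z : F} {x' y' z' : F'}
    (hgen : IntermediateField.adjoin K {x, y, z} = ⊤)
    (hgen' : IntermediateField.adjoin K {x', y', z'} = ⊤)
    (hker : RingHom.ker (ev K x y z) = RingHom.ker (ev K x' y' z')) :
    ∃ φ : F ≃ₐ[K] F', φ z = z' := by
  have := isFractionRing_range hgen
  have := isFractionRing_range hgen'
  let e : (ev K x y z).range ≃ₐ[K] (ev K x' y' z').range :=
    (Ideal.quotientKerEquivRange (ev K x y z)).symm.trans
      ((Ideal.quotientEquivAlgOfEq K hker).trans (Ideal.quotientKerEquivRange (ev K x' y' z')))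
  have he : ∀ p : MvPolynomial (Fin 3) K,
      e ⟨ev K x y z p, p, rfl⟩ = ⟨ev K x' y' z' p, p, rfl⟩ := by
    intro p
    have h1 : (Ideal.quotientKerEquivRange (ev K x y z)).symm ⟨ev K x y z p, p, rfl⟩ =
        Ideal.Quotient.mk _ p := by
      rw [AlgEquiv.symm_apply_eq]
      rfl
    change (Ideal.quotientKerEquivRange (ev K x' y' z')) (Ideal.quotientEquivAlgOfEq K hker
      ((Ideal.quotientKerEquivRange (ev K x y z)).symm ⟨ev K x y z p, p, rfl⟩)) = _
    rw [h1]
    rfl
  let φ : F ≃+* F' := IsFractionRing.ringEquivOfRingEquiv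
    (A := (ev K x y z).range) (B := (ev K x' y' z').range) e.toRingEquiv
  have hφ : ∀ p : MvPolynomial (Fin 3) K, φ (ev K x y z p) = ev K x' y' z' p := by
    intro p
    have h1 := IsFractionRing.ringEquivOfRingEquiv_algebraMap (K := F) (L := F')
      e.toRingEquiv ⟨ev K x y z p, p, rfl⟩
    change φ (ev K x y z p) = algebraMap (ev K x' y' z').range F' (e ⟨ev K x y z p, p, rfl⟩) at h1
    rw [h1, he]
    rfl
  refine ⟨AlgEquiv.ofRingEquiv (f := φ) ?_, ?_⟩
  · intro c
    have h1 := hφ (MvPolynomial.C c)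
    simpa [ev] using h1
  · have h1 := hφ (MvPolynomial.X 2)
    simpa [ev] using h1

end Iso

/-- The equations determine the pointed curve up to isomorphism. -/
theorem iso_of_hasEquations {C C' : PointedCurve} {a b : expo → ℂ} (h : C.HasEquations a b)
    (h' : C'.HasEquations a b) : C.Iso C' := by
  obtain ⟨x, y, z, hx, hy, hz, hx5, hy6, hgen⟩ := h
  obtain ⟨x', y', z', hx', hy', hz', hx5', hy6', hgen'⟩ := h'
  have hN : IsNormal C.O a b x y z := ⟨hx, hy, hz, hx5, hy6, hgen⟩
  have hN' : IsNormal C'.O a b x' y' z' := ⟨hx', hy', hz', hx5', hy6', hgen'⟩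
  have hker := (hN.ker_eq C.isFunctionField C.isPlace).trans
    (hN'.ker_eq C'.isFunctionField C'.isPlace).symm
  obtain ⟨φ, hφ⟩ := exists_algEquiv hgen hgen' hker
  refine ⟨φ, ?_⟩
  have hzO' : z' ∉ C'.O := by
    obtain ⟨Γ, hΓ1, hΓ2, hΓ3⟩ := exists_gamma C'.isFunctionField C'.isPlace ⟨z', 30, hz'.2⟩
    intro h
    have h1 := (C'.O.valuation_le_one_iff _).2 h
    rw [(hΓ3 _ _).1 hz'.2] at h1
    exact absurd (one_lt_pow₀ hΓ1 (by norm_num : (30 : ℕ) ≠ 0)) (not_lt.2 h1)
  have hV : C'.O.comap (φ : C.F →+* C'.F) = C.O := by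
    by_contra hne
    have hz1 : z ∉ C'.O.comap (φ : C.F →+* C'.F) := by
      rw [ValuationSubring.mem_comap]
      change φ z ∉ C'.O
      rw [hφ]
      exact hzO'
    apply hz1
    refine hz.1 _ ⟨?_, ?_⟩ hne
    · intro c
      rw [ValuationSubring.mem_comap]
      change φ (algebraMap ℂ C.F c) ∈ C'.O
      rw [AlgEquiv.commutes]
      exact C'.isPlace.1 c
    · intro htop
      exact hz1 (htop ▸ ValuationSubring.mem_top z)
  intro f
  rw [← hV, ValuationSubring.mem_comap]
  rfl

end Pool.Agent.Helper16.WSemi
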