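import Pool.Agent.Helper16.WSemi.DimBound

/-!
# Valuations of polynomials and of sums
-/

namespace Pool.Agent.Helper16.WSemi

open IntermediateField Polynomial

section Val

variable {K F : Type*} [Field K] [Field F] [Algebra K F]

lemma valuation_aeval_of_one_lt {V : ValuationSubring F} (hV : ∀ c : K, algebraMap K F c ∈ V)
    {z : F} (hz : 1 < V.valuation z) {p : K[X]} (hp : p ≠ 0) :
    V.valuation (aeval z p) = V.valuation z ^ p.natDegree := by
  have h0 : (0 : V.ValueGroup) < V.valuation z := lt_trans zero_lt_one hz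
  have h1 : aeval z p = algebraMap K F p.leadingCoeff * z ^ p.natDegree +
      ∑ i ∈ Finset.range p.natDegree, algebraMap K F (p.coeff i) * z ^ i := by
    rw [aeval_eq_sum_range, Finset.sum_range_succ, add_comm]
    simp [Algebra.smul_def]
  have h2 : V.valuation (∑ i ∈ Finset.range p.natDegree, algebraMap K F (p.coeff i) * z ^ i)
      < V.valuation z ^ p.natDegree := by
    refine V.valuation.map_sum_lt (pow_pos h0 _).ne' ?_
    intro i hi
    rw [map_mul, map_pow]
    calc V.valuation (algebraMap K F (p.coeff i)) * V.valuation z ^ i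
        ≤ 1 * V.valuation z ^ i := by
          gcongr
          exact (V.valuation_le_one_iff _).2 (hV _)
      _ = V.valuation z ^ i := one_mul _
      _ < V.valuation z ^ p.natDegree := pow_lt_pow_right₀ hz (Finset.mem_range.1 hi)
  have h3 : V.valuation (algebraMap K F p.leadingCoeff * z ^ p.natDegree)
      = V.valuation z ^ p.natDegree := by
    rw [map_mul, valuation_const hV (by simpa using hp), one_mul, map_pow]
  rw [h1, Valuation.map_add_eq_of_lt_left, h3]
  rw [h3]; exact h2

lemma valuation_aeval_of_sub_lt_one {V : ValuationSubring F}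
    (hV : ∀ c : K, algebraMap K F c ∈ V) {z : F} {α : K}
    (hz : V.valuation (z - algebraMap K F α) < 1) {p : K[X]} (hp : p ≠ 0) :
    V.valuation (aeval z p) = V.valuation (z - algebraMap K F α) ^ p.rootMultiplicity α := by
  have hzV : z ∈ V := by
    have h1 : z - algebraMap K F α ∈ V := (V.valuation_le_one_iff _).1 hz.le
    have h2 := V.add_mem _ _ h1 (hV α)
    rwa [sub_add_cancel] at h2
  obtain ⟨q, hq1, hq2⟩ := p.exists_eq_pow_rootMultiplicity_mul_and_not_dvd hp α
  have h1 : V.valuation (aeval z q) = 1 := by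
    have hq3 : q.eval α ≠ 0 := by
      intro h
      exact hq2 (dvd_iff_isRoot.2 h)
    obtain ⟨r, hr⟩ := X_sub_C_dvd_sub_C_eval (a := α) (p := q)
    have h2 : aeval z q = (z - algebraMap K F α) * aeval z r + algebraMap K F (q.eval α) := by
      have h := congrArg (aeval z) hr
      rw [map_sub, map_mul, map_sub, aeval_X, aeval_C, aeval_C] at h
      rw [← h]; ring
    rw [h2]
    rw [Valuation.map_add_eq_of_lt_right]
    · exact valuation_const hV hq3
    · rw [valuation_const hV hq3, map_mul]
      calc V.valuation (z - algebraMap K F α) * V.valuation (aeval z r)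
          ≤ V.valuation (z - algebraMap K F α) * 1 := by
            gcongr
            exact (V.valuation_le_one_iff _).2 (aeval_mem hV hzV _)
        _ < 1 := by simpa using hz
  conv_lhs => rw [hq1]
  rw [map_mul, map_mul, h1, mul_one, map_pow, map_pow, map_sub, aeval_X, aeval_C]

lemma valuation_sum_eq {Γ₀ : Type*} [LinearOrderedCommGroupWithZero Γ₀] {ι : Type*}
    (v : Valuation F Γ₀) (s : Finset ι) (t : ι → F)
    (hinj : ∀ e ∈ s, ∀ e' ∈ s, t e ≠ 0 → t e' ≠ 0 → v (t e) = v (t e') → e = e')
    (hne : ∃ e ∈ s, t e ≠ 0) :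
    ∃ e ∈ s, t e ≠ 0 ∧ v (∑ e ∈ s, t e) = v (t e) ∧ ∀ e' ∈ s, v (t e') ≤ v (t e) := by
  classical
  obtain ⟨e0, he0, hte0⟩ := hne
  obtain ⟨e, he, hmax⟩ := Finset.exists_max_image s (fun e => v (t e)) ⟨e0, he0⟩
  have hte : t e ≠ 0 := by
    intro h
    have h1 := hmax e0 he0
    rw [h, map_zero, le_zero_iff, Valuation.zero_iff] at h1
    exact hte0 h1
  refine ⟨e, he, hte, ?_, hmax⟩
  rw [← Finset.add_sum_erase s t he]
  apply Valuation.map_add_eq_of_lt_left
  refine v.map_sum_lt ((Valuation.ne_zero_iff _).2 hte) ?_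
  intro e' he'
  rw [Finset.mem_erase] at he'
  refine lt_of_le_of_ne (hmax e' he'.2) ?_
  intro h
  by_cases h' : t e' = 0
  · rw [h', map_zero] at h
    exact (Valuation.ne_zero_iff _).2 hte h.symm
  · exact he'.1 (hinj e' he'.2 e he h' hte h)

/-- There is a valuation ring over `K` omitting a given transcendental element. -/
lemma exists_not_mem {w : F} (hw : Transcendental K w) :
    ∃ V : ValuationSubring F, (∀ c : K, algebraMap K F c ∈ V) ∧ w ∉ V := by
  by_contra hcon
  push Not at hcon
  exact hw (isIntegral_of_forall_mem hcon).isAlgebraic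

end Val

end Pool.Agent.Helper16.WSemi
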